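import Pool.Agent.Lib.MP_0d9445_pr.HO.All

/-! The exact time scale: definitions. -/

open MeasureTheory ProbabilityTheory Set Filter Topology
open scoped ENNReal NNReal

noncomputable section

namespace Pool.Agent.Lib.MP_0d9445_pr.Lin

open HO

variable {X : Type} [MeasurableSpace X] (d : Data X)

/-- the tilt of a child -/
def tl (s : ℝ) (k : ℕ) (b : ℂ) (g : Fn) : ℝ≥0∞ := ee (s * g b - s ^ 2 / 2 * (k * Real.log 2))

/-- a law of shapes that is invariant under the tilted step -/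
structure Inv (s : ℝ) (Λ : Measure Fn) : Prop where
  prob : IsProbabilityMeasure Λ
  zero : ∀ᵐ g ∂Λ, g 0 = 0
  mom : ∀ θ : ℝ, 0 ≤ θ → ∫⁻ g, d.V g ^ θ ∂Λ ≠ ∞
  inv : ∀ (k : ℕ) (j : Ix k) (F : Fn → ℝ≥0∞), Measurable F →
    ∫⁻ g, ∫⁻ η, tl s k (cor k j) (g + η) * F (shp k (cor k j) (g + η)) ∂d.lay k ∂Λ = ∫⁻ g, F g ∂Λ

/-- the tilted law of shape and height of a uniform child of depth `k` -/
def rho (s : ℝ) (Λ : Measure Fn) (k : ℕ) : Measure (Fn × ℝ) :=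
  (4 ^ k : ℝ≥0∞)⁻¹ • ∑ j : Ix k,
    ((Λ.prod (d.lay k)).withDensity fun w => tl s k (cor k j) (w.1 + w.2)).map fun w =>
      (shp k (cor k j) (w.1 + w.2), d.kid k j (w.1 + w.2) 0)

/-- the normalised mean of `F` -/
def ph (s : ℝ) (F : X → ℝ) (g : Fn) (t : ℝ) : ℝ≥0∞ :=
  ee (-s * (g 0 + t)) * ∫⁻ x, ENNReal.ofReal (F x) ∂d.P 0 (g + cst t)

/-- a functional with a moment bound of exponent `q` and scaling exponent `s` -/
structure Fun (s q : ℝ) (F : X → ℝ) : Prop where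
  meas : Measurable F
  nonneg : ∀ x, 0 ≤ F x
  one_lt : 1 < q
  le_two : q ≤ 2
  mom : ∀ g, ∫⁻ x, ENNReal.ofReal (F x ^ q) ∂d.P 0 g ≤ d.C * ee (q * s * g 0) * d.V g

/-- the mass scales under constants and is positive -/
structure Mass : Prop where
  scale : ∀ g t, ∫⁻ x, ENNReal.ofReal (d.mu x) ∂d.P 0 (g + cst t) =
    ee (d.γ * t) * ∫⁻ x, ENNReal.ofReal (d.mu x) ∂d.P 0 g
  pos : ∀ g, ∫⁻ x, ENNReal.ofReal (d.mu x) ∂d.P 0 g ≠ 0

/-- OUTPUT with constants -/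
def OutC : Prop :=
  ∃ A0 κ0 : ℝ, 0 ≤ A0 ∧ 1 / 2 ≤ κ0 ∧ ∀ A : ℝ → ℝ, Tendsto A atTop (𝓝 A0) →
    ∀ L, d.Adm L → ∀ η, 0 < η →
      Tendsto (fun c => d.rf L c (d.bad A (fun _ => κ0) η c)) atTop (𝓝 0)

end Pool.Agent.Lib.MP_0d9445_pr.Lin
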