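import Mathlib

/-! The exact time scale: the boundary term of a subinvariant function converges. -/

open MeasureTheory ProbabilityTheory Set Filter Topology
open scoped ENNReal NNReal

noncomputable section

namespace Pool.Agent.Lib.MP_0d9445_pr.Lin

variable {S : Type} [MeasurableSpace S]

/-- the boundary term -/
def bd (ρ : Measure (S × ℝ)) (φ : S → ℝ → ℝ) (b : ℝ) : ℝ :=
  ∫ w, (∫ r in (0 : ℝ)..w.2, φ w.1 (b + r)) ∂ρ

lemma drift_shift {f : ℝ → ℝ} (hf : Measurable f) {C : ℝ} (h : ∀ t, |f t| ≤ C) (a b y : ℝ) :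
    (∫ r in (0 : ℝ)..y, f (b + r)) - ∫ r in (0 : ℝ)..y, f (a + r) =
      (∫ t in a..b, f (t + y)) - ∫ t in a..b, f t := by
  have hi : ∀ u v, IntervalIntegrable f volume u v := fun u v =>
    (intervalIntegrable_const (c := C)).mono_fun' hf.aestronglyMeasurable (ae_of_all _ h)
  rw [intervalIntegral.integral_comp_add_left, intervalIntegral.integral_comp_add_left,
    intervalIntegral.integral_comp_add_right, add_zero, add_zero]
  have h1 := intervalIntegral.integral_add_adjacent_intervals (hi a (a + y)) (hi (a + y) (b + y))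
  have h2 := intervalIntegral.integral_add_adjacent_intervals (hi a b) (hi b (b + y))
  linarith

section

variable {ρ : Measure (S × ℝ)} [IsProbabilityMeasure ρ] {φ : S → ℝ → ℝ} {U : S → ℝ}
  (hφ : Measurable (Function.uncurry φ)) (hb : ∀ᵐ w ∂ρ, ∀ t, |φ w.1 t| ≤ U w.1)
  (hI : Integrable (fun w : S × ℝ => U w.1 * (1 + |w.2|)) ρ)

omit [IsProbabilityMeasure ρ] in
include hb in
lemma drift_bound (b : ℝ) :
    ∀ᵐ w ∂ρ, ‖∫ r in (0 : ℝ)..w.2, φ w.1 (b + r)‖ ≤ U w.1 * (1 + |w.2|) := by
  filter_upwards [hb] with w hw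
  refine (intervalIntegral.norm_integral_le_of_norm_le_const (C := U w.1)
    fun r _ => hw _).trans ?_
  rw [sub_zero]
  exact mul_le_mul_of_nonneg_left (by linarith) ((abs_nonneg _).trans (hw 0))

include hφ hb hI

omit [IsProbabilityMeasure ρ] in
lemma drift_int (b : ℝ) : Integrable (fun w : S × ℝ => ∫ r in (0 : ℝ)..w.2, φ w.1 (b + r)) ρ := by
  refine hI.mono' ?_ (drift_bound hb b)
  have h1 : Measurable fun p : (S × ℝ) × ℝ => φ p.1.1 (b + p.1.2 * p.2) :=
    hφ.comp (f := fun p : (S × ℝ) × ℝ => (p.1.1, b + p.1.2 * p.2)) (by fun_prop)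
  have h2 := (h1.stronglyMeasurable.integral_prod_right'
    (ν := volume.restrict (Ioc (0 : ℝ) 1))).measurable
  refine ((measurable_snd.mul h2).aestronglyMeasurable).congr (ae_of_all _ fun w => ?_)
  have h3 := intervalIntegral.smul_integral_comp_mul_left (a := 0) (b := 1)
    (fun r => φ w.1 (b + r)) w.2
  rw [mul_zero, mul_one, intervalIntegral.integral_of_le zero_le_one] at h3
  exact h3

lemma drift_prod {ψ : S × ℝ → ℝ} (hψ : Measurable ψ) (a b : ℝ) :
    Integrable (Function.uncurry fun (t : ℝ) (w : S × ℝ) => φ w.1 (t + ψ w))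
      ((volume.restrict (Ioc a b)).prod ρ) := by
  have h1 : Measurable fun p : ℝ × (S × ℝ) => φ p.2.1 (p.1 + ψ p.2) :=
    hφ.comp (f := fun p : ℝ × (S × ℝ) => (p.2.1, p.1 + ψ p.2)) (by fun_prop)
  refine (hI.comp_snd (volume.restrict (Ioc a b))).mono' h1.aestronglyMeasurable ?_
  filter_upwards [Measure.quasiMeasurePreserving_snd.ae hb] with p hp
  exact (hp _).trans (le_mul_of_one_le_right ((abs_nonneg _).trans (hp 0))
    (le_add_of_nonneg_right (abs_nonneg _)))

lemma drift_diff {a b : ℝ} (hab : a ≤ b) : bd ρ φ b - bd ρ φ a =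
    (∫ t in Ioc a b, ∫ w, φ w.1 (t + w.2) ∂ρ) - ∫ t in Ioc a b, ∫ w, φ w.1 (t + 0) ∂ρ := by
  have h1 := drift_prod hφ hb hI measurable_snd a b
  have h0 := drift_prod hφ hb hI (ψ := fun _ => 0) measurable_const a b
  rw [integral_integral_swap h1, integral_integral_swap h0, bd, bd,
    ← integral_sub (drift_int hφ hb hI b) (drift_int hφ hb hI a)]
  refine Eq.trans (integral_congr_ae ?_)
    (integral_sub h1.integral_prod_right h0.integral_prod_right)
  filter_upwards [hb] with w hw
  rw [drift_shift hφ.of_uncurry_left hw, intervalIntegral.integral_of_le hab,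
    intervalIntegral.integral_of_le hab]
  simp

end

theorem drift (ρ : Measure (S × ℝ)) [IsProbabilityMeasure ρ] {φ : S → ℝ → ℝ} {U : S → ℝ}
    (hφ : Measurable (Function.uncurry φ)) (hb : ∀ᵐ w ∂ρ, ∀ t, |φ w.1 t| ≤ U w.1)
    (hI : Integrable (fun w : S × ℝ => U w.1 * (1 + |w.2|)) ρ) {E a : ℝ} (ha : 0 < a)
    (hs : ∀ t, 0 ≤ t →
      ∫ w, φ w.1 t ∂ρ ≤ ∫ w, φ w.1 (t + w.2) ∂ρ + E * Real.exp (-a * t)) :
    ∃ β, Tendsto (bd ρ φ) atTop (𝓝 β) := by
  have hc : Continuous fun t : ℝ => E * Real.exp (-a * t) := by fun_prop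
  have h1 : ∀ u v : ℝ, 0 ≤ u → u ≤ v →
      bd ρ φ u - E / a * Real.exp (-a * u) ≤ bd ρ φ v - E / a * Real.exp (-a * v) := by
    intro u v hu huv
    have k1 := (drift_prod hφ hb hI measurable_snd u v).integral_prod_left
    have k0 := (drift_prod hφ hb hI (ψ := fun _ => 0) measurable_const u v).integral_prod_left
    have k2 : IntegrableOn (fun t : ℝ => E * Real.exp (-a * t)) (Ioc u v) :=
      hc.integrableOn_Ioc
    have k3 := setIntegral_mono_on k0 (k1.add k2) measurableSet_Ioc fun t ht => by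
      simpa using hs t (hu.trans ht.1.le)
    have k4 : ∫ t in u..v, E * Real.exp (-a * t) =
        -(E / a) * Real.exp (-a * v) - -(E / a) * Real.exp (-a * u) :=
      intervalIntegral.integral_eq_sub_of_hasDerivAt
        (f := fun t => -(E / a) * Real.exp (-a * t)) (fun t _ => by
          refine ((((hasDerivAt_id' t).const_mul (-a)).exp).const_mul (-(E / a))).congr_deriv ?_
          field_simp) (hc.intervalIntegrable u v)
    rw [intervalIntegral.integral_of_le huv] at k4
    have k5 := integral_add k1 k2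
    have k6 := drift_diff hφ hb hI huv
    simp only [Function.uncurry, Pi.add_apply] at k3 k5
    linarith
  have h2 : Monotone fun b : ℝ => bd ρ φ (max b 0) - E / a * Real.exp (-a * max b 0) :=
    fun u v h => h1 _ _ (le_max_right _ _) (max_le_max_right _ h)
  have h3 : BddAbove (range fun b : ℝ => bd ρ φ (max b 0) - E / a * Real.exp (-a * max b 0)) := by
    refine ⟨∫ w, U w.1 * (1 + |w.2|) ∂ρ + |E / a|, ?_⟩
    rintro _ ⟨b, rfl⟩
    have k1 : bd ρ φ (max b 0) ≤ ∫ w, U w.1 * (1 + |w.2|) ∂ρ :=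
      (le_abs_self _).trans (norm_integral_le_of_norm_le hI (drift_bound hb _))
    have k2 : Real.exp (-a * max b 0) ≤ 1 :=
      Real.exp_le_one_iff.2 (by nlinarith [le_max_right b 0])
    have k3 := Real.exp_pos (-a * max b 0)
    have k4 := neg_abs_le (E / a)
    have k5 := abs_nonneg (E / a)
    dsimp only
    nlinarith
  have h4 : Tendsto (fun b : ℝ => E / a * Real.exp (-a * b)) atTop (𝓝 (E / a * 0)) :=
    (Real.tendsto_exp_atBot.comp (tendsto_id.const_mul_atTop_of_neg (neg_neg_of_pos ha))).const_mul _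
  refine ⟨_, ((tendsto_atTop_ciSup h2 h3).add h4).congr' ?_⟩
  filter_upwards [eventually_ge_atTop (0 : ℝ)] with b hb0
  rw [max_eq_left hb0, sub_add_cancel]

end Pool.Agent.Lib.MP_0d9445_pr.Lin
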