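import Pool.Agent.Lib.MP_0d9445_pr.Lin.Drift

/-! The exact time scale: the boundary term sees the slowly varying constant. -/

open MeasureTheory ProbabilityTheory Set Filter Topology
open scoped ENNReal NNReal

noncomputable section

namespace Pool.Agent.Lib.MP_0d9445_pr.Lin

variable {S : Type} [MeasurableSpace S]

theorem ident_gauss (R : ℝ) {f : ℝ → ℝ≥0∞} (hf : Measurable f) :
    ∫⁻ r in Icc (-R) R, f r ≤ (gaussianPDF 0 1 R)⁻¹ * ∫⁻ r, f r ∂gaussianReal 0 1 := by
  have h0 : gaussianPDF 0 1 R ≠ 0 := (gaussianPDF_pos 0 one_ne_zero R).ne'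
  have h1 : gaussianPDF 0 1 R ≠ ∞ := ENNReal.ofReal_ne_top
  rw [← ENNReal.mul_le_iff_le_inv h0 h1, gaussianReal_of_var_ne_zero 0 one_ne_zero,
    lintegral_withDensity_eq_lintegral_mul _ (measurable_gaussianPDF 0 1) hf,
    ← lintegral_const_mul _ hf]
  refine le_trans (setLIntegral_mono' measurableSet_Icc fun r hr => ?_)
    (setLIntegral_le_lintegral (Icc (-R) R) _)
  refine mul_le_mul_left (ENNReal.ofReal_le_ofReal ?_) _
  have := sq_le_sq' hr.1 hr.2
  simp only [gaussianPDFReal, sub_zero]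
  gcongr

theorem ident_le {f : ℝ → ℝ} {u : ℝ} (h : ∀ r, |f r| ≤ u) (y : ℝ) :
    ‖∫ r in (0 : ℝ)..y, f r‖ ≤ u * (1 + |y|) := by
  have h1 := intervalIntegral.norm_integral_le_of_norm_le_const (a := 0) (b := y) (f := f)
    fun r _ => h r
  have h2 := (abs_nonneg _).trans (h 0)
  rw [sub_zero] at h1
  linarith

theorem ident_meas {f : S → ℝ → ℝ} (hf : Measurable (Function.uncurry f)) :
    Measurable fun w : S × ℝ => ∫ r in (0 : ℝ)..w.2, f w.1 r := by
  have hg : Measurable fun p : (S × ℝ) × ℝ => f p.1.1 p.2 :=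
    hf.comp (measurable_fst.fst.prodMk measurable_snd)
  have key : ∀ a b : S × ℝ → ℝ, Measurable a → Measurable b →
      Measurable fun w : S × ℝ => ∫ r in Ioc (a w) (b w), f w.1 r := fun a b ha hb => by
    have hs : MeasurableSet {p : (S × ℝ) × ℝ | a p.1 < p.2 ∧ p.2 ≤ b p.1} :=
      (measurableSet_lt (ha.comp measurable_fst) measurable_snd).inter
        (measurableSet_le measurable_snd (hb.comp measurable_fst))
    have := (hg.indicator hs).stronglyMeasurable.integral_prod_right' (ν := volume)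
    simp only [← integral_indicator measurableSet_Ioc]
    exact this.measurable
  exact (key _ _ measurable_const measurable_snd).sub (key _ _ measurable_snd measurable_const)

theorem ident (ρ : Measure (S × ℝ)) [IsProbabilityMeasure ρ] {ψ : ℝ → S → ℝ → ℝ} {U : S → ℝ}
    (hψ : ∀ b, Measurable (Function.uncurry (ψ b)))
    (hb : ∀ᶠ b in atTop, ∀ᵐ w ∂ρ, ∀ r, |ψ b w.1 r| ≤ U w.1)
    (hI : Integrable (fun w : S × ℝ => U w.1 * (1 + |w.2|)) ρ)
    (h0 : Tendsto (fun b => ∫⁻ g, ∫⁻ r, ‖ψ b g r‖ₑ ∂gaussianReal 0 1 ∂ρ.map Prod.fst) atTop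
      (𝓝 0)) :
    Tendsto (fun b => ∫ w, (∫ r in (0 : ℝ)..w.2, ψ b w.1 r) ∂ρ) atTop (𝓝 0) := by
  rw [tendsto_zero_iff_enorm_tendsto_zero, ENNReal.tendsto_nhds_zero]
  intro ε hε
  have hε2 := ENNReal.half_pos hε.ne'
  have hs : ∀ n : ℕ, MeasurableSet {w : S × ℝ | (n : ℝ) < |w.2|} := fun n =>
    measurableSet_lt measurable_const measurable_snd.abs
  have t1 : Tendsto (ρ ∘ fun n : ℕ => {w : S × ℝ | (n : ℝ) < |w.2|}) atTop (𝓝 0) := by
    have := tendsto_measure_iInter_atTop (μ := ρ) (fun n => (hs n).nullMeasurableSet)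
      (fun m n hmn w (hw : (n : ℝ) < |w.2|) => (Nat.cast_le.2 hmn).trans_lt hw) ⟨0, measure_ne_top _ _⟩
    rwa [show (⋂ n : ℕ, {w : S × ℝ | (n : ℝ) < |w.2|}) = ∅ from eq_empty_of_forall_notMem
      fun w hw => by
        obtain ⟨n, hn⟩ := exists_nat_ge |w.2|
        exact not_lt.2 hn (mem_iInter.1 hw n), measure_empty] at this
  obtain ⟨n, hn⟩ := (ENNReal.tendsto_nhds_zero.1 (tendsto_setLIntegral_zero hI.2.ne t1) _ hε2).exists
  have t2 := ENNReal.Tendsto.const_mul (a := (gaussianPDF 0 1 n)⁻¹) h0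
    (Or.inr (ENNReal.inv_ne_top.2 (gaussianPDF_pos 0 one_ne_zero _).ne'))
  rw [mul_zero] at t2
  filter_upwards [hb, ENNReal.tendsto_nhds_zero.1 t2 _ hε2] with b hb h2
  have hm : Measurable fun g => ∫⁻ r, ‖ψ b g r‖ₑ ∂gaussianReal 0 1 :=
    (hψ b).enorm.lintegral_prod_right'
  have hm' : Measurable fun w : S × ℝ => ∫⁻ r, ‖ψ b w.1 r‖ₑ ∂gaussianReal 0 1 :=
    hm.comp measurable_fst
  rw [lintegral_map hm measurable_fst, ← lintegral_const_mul _ hm'] at h2
  rw [← lintegral_indicator (hs n)] at hn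
  refine (enorm_integral_le_lintegral_enorm _).trans ?_
  rw [← ENNReal.add_halves ε]
  refine le_trans ?_ (add_le_add h2 hn)
  rw [← lintegral_add_left (hm'.const_mul _)]
  refine lintegral_mono_ae (hb.mono fun w hw => ?_)
  rcases lt_or_ge (n : ℝ) |w.2| with h | h
  · refine le_add_left ?_
    rw [indicator_of_mem (show w ∈ {w : S × ℝ | (n : ℝ) < |w.2|} from h)]
    rw [← ofReal_norm, ← ofReal_norm]
    exact ENNReal.ofReal_le_ofReal ((ident_le hw _).trans (le_abs_self _))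
  · refine le_add_right (le_trans ?_ (ident_gauss n ((hψ b).of_uncurry_left.enorm)))
    rw [← ofReal_norm, intervalIntegral.norm_intervalIntegral_eq, ofReal_norm]
    refine (enorm_integral_le_lintegral_enorm _).trans (lintegral_mono_set fun r hr => ?_)
    have := abs_le.1 h
    have h0 : (0 : ℝ) ≤ n := Nat.cast_nonneg n
    rcases mem_uIoc.1 hr with h1 | h1 <;> constructor <;> linarith [h1.1, h1.2]

/-- a slowly varying constant of a subinvariant function converges -/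
theorem conv_of (ρ : Measure (S × ℝ)) [IsProbabilityMeasure ρ] {φ : S → ℝ → ℝ} {U M : S → ℝ}
    (hφ : Measurable (Function.uncurry φ)) (hM : Measurable M)
    (hb : ∀ᵐ w ∂ρ, ∀ t, |φ w.1 t| ≤ U w.1) (hb' : ∀ᵐ w ∂ρ, |M w.1| ≤ U w.1)
    (hI : Integrable (fun w : S × ℝ => U w.1 * (1 + |w.2|)) ρ) {E a : ℝ} (ha : 0 < a)
    (hs : ∀ t, 0 ≤ t →
      ∫ w, φ w.1 t ∂ρ ≤ ∫ w, φ w.1 (t + w.2) ∂ρ + E * Real.exp (-a * t))
    (hm : ∫ w, w.2 * M w.1 ∂ρ ≠ 0) {c : ℝ → ℝ} {K : ℝ} (hK : ∀ᶠ b in atTop, |c b| ≤ K)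
    (h0 : Tendsto (fun b => ∫⁻ g, ∫⁻ r, ‖φ g (b + r) - c b * M g‖ₑ ∂gaussianReal 0 1
      ∂ρ.map Prod.fst) atTop (𝓝 0)) :
    ∃ c0, Tendsto c atTop (𝓝 c0) := by
  obtain ⟨β, hβ⟩ := drift ρ hφ hb hI ha hs
  have hφ' : ∀ b, Measurable (Function.uncurry fun g r => φ g (b + r)) := fun b =>
    hφ.comp (measurable_fst.prodMk (measurable_snd.const_add b))
  have t := ident ρ (ψ := fun b g r => φ g (b + r) - c b * M g) (U := fun g => (1 + K) * U g)
    (fun b => (hφ' b).sub ((hM.comp measurable_fst).const_mul _)) ?_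
    (by simpa only [mul_assoc] using hI.const_mul (1 + K)) h0
  · refine ⟨(β - 0) / ∫ w, w.2 * M w.1 ∂ρ, ((hβ.sub t).div_const _).congr' (.of_forall fun b => ?_)⟩
    have i1 : Integrable (fun w : S × ℝ => ∫ r in (0 : ℝ)..w.2, φ w.1 (b + r)) ρ :=
      hI.mono' (ident_meas (hφ' b)).aestronglyMeasurable
        (hb.mono fun w hw => ident_le (fun r => hw _) _)
    have i2 : Integrable (fun w : S × ℝ => w.2 * M w.1) ρ :=
      hI.mono' (measurable_snd.mul (hM.comp measurable_fst)).aestronglyMeasurable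
        (hb'.mono fun w hw => by
          rw [Real.norm_eq_abs, abs_mul]
          nlinarith [abs_nonneg w.2, abs_nonneg (M w.1)])
    have e : ∫ w, (∫ r in (0 : ℝ)..w.2, (φ w.1 (b + r) - c b * M w.1)) ∂ρ =
        bd ρ φ b - c b * ∫ w, w.2 * M w.1 ∂ρ := by
      rw [bd, ← integral_const_mul, ← integral_sub i1 (i2.const_mul _)]
      refine integral_congr_ae (hb.mono fun w hw => ?_)
      have i3 : IntervalIntegrable (fun r => φ w.1 (b + r)) volume 0 w.2 :=
        (intervalIntegrable_const (c := U w.1)).mono_fun'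
          (hφ' b).of_uncurry_left.aestronglyMeasurable (.of_forall fun r => hw _)
      beta_reduce
      rw [intervalIntegral.integral_sub i3 intervalIntegrable_const,
        intervalIntegral.integral_const, smul_eq_mul]
      ring
    rw [e, sub_sub_cancel, mul_div_cancel_right₀ _ hm]
  · filter_upwards [hK] with b hK
    filter_upwards [hb, hb'] with w h1 h2 r
    have h3 := abs_sub (φ w.1 (b + r)) (c b * M w.1)
    rw [abs_mul] at h3
    have h4 := mul_le_mul hK h2 (abs_nonneg _) ((abs_nonneg _).trans hK)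
    linarith [h1 (b + r)]

end Pool.Agent.Lib.MP_0d9445_pr.Lin
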