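import Pool.Agent.Lib.MP_0d9445_pr.Lin.Defs
import Pool.Agent.Lib.MP_0d9445_pr.HO.InstLay
import Pool.Agent.Lib.MP_0d9445_pr.CM.Span
import Pool.Agent.Lib.MP_0d9445_pr.CM.Kern
import Pool.Agent.Lib.MP_0d9445_pr.Lay.CMap

/-! The exact time scale: the invariant law of the tilted shape. -/

open MeasureTheory ProbabilityTheory Set Filter Topology LQ.Gauss
open scoped ENNReal NNReal RealInnerProductSpace

noncomputable section

namespace Pool.Agent.Lib.MP_0d9445_pr.Lin

open HO CM

theorem lam_int {k : ℝ → ℝ} (hk : IsK k) {a b : ℝ} (ha : 0 < a) (hb : 0 < b) (x : ℂ) :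
    IntervalIntegrable (fun v => k (v * ‖x‖) / v) volume a b := by
  refine ContinuousOn.intervalIntegrable (ContinuousOn.div ?_ continuousOn_id fun v hv => ?_)
  · exact (hk.smooth.continuous.comp (continuous_id.mul continuous_const)).continuousOn
  · exact ((lt_min ha hb).trans_le hv.1).ne'

theorem lam_Kab {k : ℝ → ℝ} (hk : IsK k) {M a b : ℝ} (hM0 : 0 < M)
    (hM : ∀ s, 0 ≤ s → |deriv k s| ≤ M) (ha : 0 < a) (hab : a ≤ b) (x y : ℂ) :
    |Kab k a b x - Kab k a b y| ≤ M * (b - a) * ‖x - y‖ := by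
  have hb : 0 < b := ha.trans_le hab
  rw [Kab, Kab, ← intervalIntegral.integral_sub (lam_int hk ha hb x) (lam_int hk ha hb y)]
  have := intervalIntegral.norm_integral_le_of_norm_le_const (a := a) (b := b)
    (f := fun v => k (v * ‖x‖) / v - k (v * ‖y‖) / v) (C := M * ‖x - y‖) fun v hv => by
      rw [uIoc_of_le hab] at hv
      have hv0 : 0 < v := ha.trans hv.1
      rw [← sub_div, Real.norm_eq_abs, abs_div, abs_of_pos hv0, div_le_iff₀ hv0]
      refine (hk.abs_sub_le hM (by positivity) (by positivity)).trans ?_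
      rw [← mul_sub, abs_mul, abs_of_pos hv0, mul_assoc, mul_comm v]
      gcongr
      exact abs_norm_sub_norm_le x y
  rw [abs_of_nonneg (sub_nonneg.2 hab)] at this
  refine this.trans (le_of_eq ?_)
  ring

theorem lam_pyth {K : Type*} [NormedAddCommGroup K] [InnerProductSpace ℝ K] {v : ℕ → K}
    (h : ∀ i j, i ≠ j → ⟪v i, v j⟫ = 0) (N : ℕ) :
    ‖∑ i ∈ Finset.range N, v i‖ ^ 2 = ∑ i ∈ Finset.range N, ‖v i‖ ^ 2 := by
  induction N with
  | zero => simp
  | succ N ih =>
    rw [Finset.sum_range_succ, Finset.sum_range_succ, norm_add_sq_real, ih, sum_inner,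
      Finset.sum_eq_zero fun i hi => h i N (Finset.mem_range.1 hi).ne]
    ring

theorem lam_Ico {A : Type*} [AddCommMonoid A] (h : ℤ → A) (N : ℕ) :
    ∑ j ∈ Finset.Ico (-(N : ℤ)) 0, h j = ∑ n ∈ Finset.range N, h (-((n : ℤ) + 1)) := by
  induction N with
  | zero => simp
  | succ N ih =>
    have e : Finset.Ico (-((N + 1 : ℕ) : ℤ)) 0 =
        insert (-((N : ℤ) + 1)) (Finset.Ico (-(N : ℤ)) 0) := by
      ext j
      simp only [Finset.mem_Ico, Finset.mem_insert]
      push_cast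
      omega
    rw [e, Finset.sum_insert (by simp only [Finset.mem_Ico]; omega), ih, Finset.sum_range_succ,
      add_comm]

/-- the Gaussian space of the layers and of the infrared part -/
theorem lam_iso (M : Model) :
    ∃ (K : Type) (_ : NormedAddCommGroup K) (_ : InnerProductSpace ℝ K)
      (W : K → M.Ω → ℝ) (e : ℂ → K) (f : ℕ → ℂ → K) (C : ℝ), IsIso W M.P ∧
      (∀ z, (fun ω => M.ginf ω z) =ᵐ[M.P] W (e z)) ∧
      (∀ k z, (fun ω => (M.ginf ω + ∑ i ∈ Finset.range k, M.eta i ω) z) =ᵐ[M.P] W (f k z)) ∧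
      (∀ k z, ‖f k z‖ ^ 2 = ‖e z‖ ^ 2 + k * Real.log 2) ∧
      ∀ z w, |‖e z‖ ^ 2 - ‖e w‖ ^ 2| ≤ C * ‖z - w‖ := by
  have hk : IsK M.k := ⟨M.k_smooth, M.k_zero, M.k_supp, M.k_nonneg⟩
  obtain ⟨C, hC0, hC⟩ := hk.exists_bound
  obtain ⟨K, _, _, hK, W, F, hW, hF, -⟩ := exists_iso' M.gproc (by
    rintro (a | a)
    · exact M.mean_eta _ _
    · exact M.mean_H _ _)
  set E : ℤ → ℂ → K := fun j x => F (Sum.inl (j, x))
  have e1 : ∀ (j : ℤ) x, (fun ω => M.eta j ω x) =ᵐ[M.P] W (E j x) :=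
    fun j x => hF (Sum.inl (j, x))
  have hE : ∀ i j x y, ⟪E i x, E j y⟫ =
      if i = j then Kab M.k (2 ^ j) (2 ^ (j + 1)) (x - y) else 0 := fun i j x y => by
    rw [← hW.cov, ← hW.version_cov (e1 i x) (e1 j y) |>.trans (hW.cov _ _).symm, M.cov_eta]
    rfl
  have h2 : ∀ j : ℤ, (2 : ℝ) ^ (j + 1) = 2 ^ j * 2 := fun j => zpow_add_one₀ two_ne_zero j
  have hle : ∀ j : ℤ, (2 : ℝ) ^ j ≤ 2 ^ (j + 1) := fun j =>
    zpow_le_zpow_right₀ one_le_two (by omega)
  have hK0 : ∀ j : ℤ, Kab M.k (2 ^ j) (2 ^ (j + 1)) 0 = Real.log 2 := fun j => by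
    rw [Kab_zero hk (by positivity) (hle j), h2, mul_div_cancel_left₀ _ (by positivity)]
  have hEn : ∀ j x, ‖E j x‖ ^ 2 = Real.log 2 := fun j x => by
    rw [← real_inner_self_eq_norm_sq, hE, if_pos rfl, sub_self, hK0]
  set d : ℕ → ℂ → K := fun n z => E (-((n : ℤ) + 1)) z - E (-((n : ℤ) + 1)) 0 with hd
  have hdn : ∀ n z, ‖d n z‖ ^ 2 = 2 * Real.log 2 -
      2 * Kab M.k (2 ^ (-((n : ℤ) + 1))) (2 ^ (-((n : ℤ) + 1) + 1)) z := fun n z => by
    rw [hd, norm_sub_sq_real, hEn, hEn, hE, if_pos rfl, sub_zero]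
    ring
  have hp : ∀ n : ℕ, (2 : ℝ) ^ (-((n : ℤ) + 1) + 1) - 2 ^ (-((n : ℤ) + 1)) = (1 / 2) ^ n / 2 := by
    intro n
    rw [h2, zpow_neg, ← Nat.cast_succ, zpow_natCast, pow_succ, one_div, inv_pow]
    field_simp
    ring
  have hdd : ∀ n z w, |‖d n z‖ ^ 2 - ‖d n w‖ ^ 2| ≤ C * ‖z - w‖ * (1 / 2) ^ n := fun n z w => by
    have h := lam_Kab hk hC0 hC (a := 2 ^ (-((n : ℤ) + 1))) (by positivity) (hle _) w z
    rw [hp, norm_sub_rev] at h
    rw [hdn, hdn, sub_sub_sub_cancel_left, ← mul_sub, abs_mul, abs_two]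
    linarith
  have hd0 : ∀ n, d n 0 = 0 := fun n => sub_self _
  have hs : ∀ z, Summable fun n => d n z := fun z => by
    refine Summable.of_norm_bounded (g := fun n => √(C * ‖z‖) * √(1 / 2) ^ n)
      ((summable_geometric_of_lt_one (Real.sqrt_nonneg _) ?_).mul_left _) fun n => ?_
    · rw [Real.sqrt_lt' one_pos]; norm_num
    · have h := hdd n z 0
      rw [hd0, norm_zero, sub_zero, zero_pow two_ne_zero, sub_zero] at h
      refine abs_le_of_sq_le_sq' ?_ (by positivity) |>.2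
      rw [mul_pow, ← pow_mul, mul_comm n, pow_mul, Real.sq_sqrt (by positivity),
        Real.sq_sqrt (by positivity)]
      exact (le_abs_self _).trans h
  have ht : ∀ z, Tendsto (fun N => ∑ n ∈ Finset.range N, d n z) atTop (𝓝 (∑' n, d n z)) :=
    fun z => (hs z).hasSum.tendsto_sum_nat
  have ho : ∀ z i j, i ≠ j → ⟪d i z, d j z⟫ = 0 := fun z i j hij => by
    have : -((i : ℤ) + 1) ≠ -((j : ℤ) + 1) := by omega
    simp only [hd, inner_sub_left, inner_sub_right, hE, if_neg this, sub_self]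
  have hg : ∀ z, (fun ω => M.ginf ω z) =ᵐ[M.P] W (∑' n, d n z) := fun z => by
    refine hW.ae_eq_of_tendsto (ht z) ?_
    filter_upwards [M.ginf_lim, ae_all_iff.2 fun N => hW.sum (Finset.range N) fun n => d n z,
      ae_all_iff.2 fun n : ℕ => hW.sub (E (-((n : ℤ) + 1)) z) (E (-((n : ℤ) + 1)) 0),
      ae_all_iff.2 fun j => e1 j z, ae_all_iff.2 fun j => e1 j 0] with ω h1 h3 h4 h5 h6
    refine (((continuous_eval_const z).tendsto _).comp h1).congr fun N => ?_
    rw [Function.comp, lam_Ico, h3, ContinuousMap.sum_apply]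
    refine Finset.sum_congr rfl fun n _ => ?_
    rw [hd, h4, ← h5, ← h6]
    rfl
  refine ⟨K, _, _, W, fun z => ∑' n, d n z,
    fun k z => ∑' n, d n z + ∑ i ∈ Finset.range k, E i z, 2 * C, hW, hg, fun k z => ?_,
    fun k z => ?_, fun z w => ?_⟩
  · filter_upwards [hg z, hW.add (∑' n, d n z) (∑ i ∈ Finset.range k, E i z),
      hW.sum (Finset.range k) fun i => E i z, ae_all_iff.2 fun j => e1 j z] with ω h1 h3 h4 h5
    rw [h3, h4, ← h1, ContinuousMap.add_apply, ContinuousMap.sum_apply]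
    exact congrArg _ (Finset.sum_congr rfl fun i _ => h5 i)
  · have h0 : ⟪∑' n, d n z, ∑ i ∈ Finset.range k, E i z⟫ = 0 := by
      refine tendsto_nhds_unique ((ht z).inner tendsto_const_nhds)
        (tendsto_const_nhds.congr fun N => ?_)
      rw [sum_inner]
      refine (Finset.sum_eq_zero fun n _ => ?_).symm
      rw [inner_sum]
      refine Finset.sum_eq_zero fun i _ => ?_
      have : -((n : ℤ) + 1) ≠ i := by omega
      simp only [hd, inner_sub_left, hE, if_neg this, sub_self]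
    rw [norm_add_sq_real, h0, lam_pyth (v := fun i => E i z) fun i j hij => by
      rw [hE, if_neg (by exact_mod_cast hij)]]
    simp [hEn]
  · refine le_of_tendsto' ((((ht z).norm.pow 2).sub ((ht w).norm.pow 2)).abs) fun N => ?_
    rw [lam_pyth (ho z), lam_pyth (ho w), ← Finset.sum_sub_distrib]
    refine (Finset.abs_sum_le_sum_abs _ _).trans
      ((Finset.sum_le_sum fun n _ => hdd n z w).trans ?_)
    rw [← Finset.mul_sum]
    have h := (summable_geometric_two).sum_le_tsum (Finset.range N) fun n _ => by positivity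
    rw [tsum_geometric_two] at h
    have : 0 ≤ C * ‖z - w‖ := by positivity
    nlinarith

theorem lam_shape (M : Model) (k : ℕ) (b : ℂ) :
    M.P.map (fun ω => shp k b (M.ginf ω + ∑ i ∈ Finset.range k, M.eta i ω)) = M.P.map M.ginf := by
  simpa only [shp_eq] using M.shape_law k 0 b

theorem lam_VV {Θ : ℝ} (g h : Fn) : VV Θ (g + h) ≤ VV Θ g * VV Θ h := by
  rw [VV, VV, VV, ← CR.ex_add, ← mul_add]
  exact CR.ex_mono (mul_le_mul_right (CR.oo_add_le _ _ _ _) _)

theorem exists_lam (M : Model) (s : ℝ) : ∃ Λ : Measure Fn, IsProbabilityMeasure Λ ∧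
    (∀ᵐ g ∂Λ, g 0 = 0) ∧ (∀ Θ θ : ℝ, 0 ≤ Θ → 0 ≤ θ → ∫⁻ g, VV Θ g ^ θ ∂Λ ≠ ∞) ∧
    ∀ (k : ℕ) (b : ℂ) (F : Fn → ℝ≥0∞), Measurable F →
      ∫⁻ g, ∫⁻ η, tl s k b (g + η) * F (shp k b (g + η)) ∂M.lay 0 k ∂Λ = ∫⁻ g, F g ∂Λ := by
  obtain ⟨K, _, _, W, e, f, C, hW, he, hf, hn, hL⟩ := lam_iso M
  have hL' : ∀ z w, |-s * ‖e z‖ ^ 2 / 2 - -s * ‖e w‖ ^ 2 / 2| ≤ |s| * |C| * ‖z - w‖ := by
    intro z w
    have h := (hL z w).trans (mul_le_mul_of_nonneg_right (le_abs_self C) (norm_nonneg _))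
    rw [← sub_div, ← mul_sub, abs_div, abs_mul, abs_neg, abs_two, mul_assoc]
    have := mul_le_mul_of_nonneg_left h (abs_nonneg s)
    have : 0 ≤ |s| * (|C| * ‖z - w‖) := by positivity
    linarith
  have hc : Continuous fun z => -s * ‖e z‖ ^ 2 / 2 :=
    (LipschitzWith.of_dist_le_mul (K := ⟨|s| * |C|, by positivity⟩) fun z w => by
      rw [Real.dist_eq, dist_eq_norm]; exact hL' z w).continuous
  set σ : Fn := ⟨_, hc⟩ with hσ
  have hσa : ∀ z, σ z = -s * ‖e z‖ ^ 2 / 2 := fun z => rfl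
  have hsq : ∀ z, ∫ ω, M.ginf ω z ^ 2 ∂M.P = ‖e z‖ ^ 2 := fun z => by
    rw [← hW.integral_sq]
    exact integral_congr_ae ((he z).mono fun ω h => by simp only [h])
  have hm : Measurable fun ω => M.ginf ω + σ := M.meas_ginf.add_const σ
  refine ⟨M.P.map fun ω => M.ginf ω + σ, Measure.isProbabilityMeasure_map hm.aemeasurable, ?_,
    fun Θ θ _ hθ => ?_, fun k b F hF => ?_⟩
  · refine (ae_map_iff hm.aemeasurable (measurable_ev 0 (measurableSet_singleton 0))).2
      (.of_forall fun ω => ?_)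
    have h0 := hsq 0
    simp only [M.ginf_zero] at h0
    change M.ginf ω 0 + σ 0 = 0
    rw [M.ginf_zero, hσa, ← h0]
    simp
  · have hV := (VV_meas Θ).pow_const θ
    have h1 : VV Θ σ ≠ ∞ := by
      refine CR.ex_ne_top (ENNReal.mul_ne_top ENNReal.ofReal_ne_top
        (ENNReal.mul_ne_top ENNReal.ofReal_ne_top ?_))
      exact ne_top_of_le_ne_top ENNReal.ofReal_ne_top (LQ.Lay.lip_le fun x _ y _ => hL' x y)
    have h2 := VV_Ginf M Θ θ
    rw [Model.Ginf, lintegral_map hV M.meas_ginf] at h2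
    rw [lintegral_map hV hm]
    refine ne_top_of_le_ne_top (ENNReal.mul_ne_top h2 (ENNReal.rpow_ne_top_of_nonneg hθ h1)) ?_
    refine le_trans (lintegral_mono fun ω => ?_) (lintegral_mul_const _ (hV.comp M.meas_ginf)).le
    change _ ≤ VV Θ (M.ginf ω) ^ θ * _
    rw [← ENNReal.mul_rpow_of_nonneg _ _ hθ]
    exact ENNReal.rpow_le_rpow (lam_VV _ _) hθ
  · set S : M.Ω → Fn := fun ω => ∑ i ∈ Finset.range k, M.eta i ω with hS
    have hSm : Measurable S := Finset.measurable_fun_sum _ fun _ _ => M.meas_eta _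
    have hX : Measurable fun ω => shp k b (M.ginf ω + S ω) :=
      (measurable_shp k b).comp (M.meas_ginf.add hSm)
    have hY : ∀ w, (fun ω => shp k b (M.ginf ω + S ω) w) =ᵐ[M.P]
        W (f k (b + w / 2 ^ k) - f k b) := fun w => by
      filter_upwards [hW.sub (f k (b + w / 2 ^ k)) (f k b), hf k b, hf k (b + w / 2 ^ k)]
        with ω h1 h2 h3
      rw [h1, ← h2, ← h3, shp_apply]
    have hd : ∀ w, ‖f k (b + w / 2 ^ k) - f k b‖ ^ 2 = ‖e w‖ ^ 2 := fun w => by
      have hq : Measurable fun g : Fn => g w ^ 2 := (measurable_ev w).pow_const 2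
      rw [← hW.integral_sq, ← hsq, ← integral_map M.meas_ginf.aemeasurable hq.aestronglyMeasurable,
        ← lam_shape M k b, integral_map hX.aemeasurable hq.aestronglyMeasurable]
      exact integral_congr_ae ((hY w).mono fun ω h => by simp only [← h])
    have hin : ∀ w, ⟪s • f k b, f k (b + w / 2 ^ k) - f k b⟫ = (σ - shp k b σ) w := fun w => by
      have h1 := hd w
      rw [norm_sub_sq_real, hn, hn] at h1
      rw [real_inner_smul_left, inner_sub_right, real_inner_self_eq_norm_sq, hn, real_inner_comm,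
        ContinuousMap.sub_apply, shp_apply, hσa, hσa, hσa]
      linear_combination (-s / 2) * h1
    have hT : (tilt W (s • f k b) M.P).map (fun ω => shp k b (M.ginf ω + S ω)) =
        M.P.map fun ω => shp k b (M.ginf ω + S ω) + (σ - shp k b σ) := by
      refine LQ.Lay.cm_map_eq hX (hX.add_const _) ?_
      refine (hW.version_map_tilt (fun w => (measurable_ev w).comp hX) hY _).trans ?_
      simp only [hin, ContinuousMap.add_apply, Function.comp]
    have hΨ : Measurable fun u : Fn => tl s k b u * F (shp k b u) :=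
      (measurable_ee.comp (((measurable_ev b).const_mul s).sub_const _)).mul
        (hF.comp (measurable_shp k b))
    have hi : IndepFun (fun ω => M.ginf ω + σ) S M.P :=
      M.indep_ginf_eta.comp (measurable_add_const σ)
        (Finset.measurable_fun_sum (Finset.range k) fun i _ => measurable_pi_apply i)
    have hl : M.lay 0 k = M.P.map S := by simp only [Model.lay, zero_add, hS]
    have := lay_prob M 0 k
    rw [indepFun_iff_map_prod_eq_prod_map_map hm.aemeasurable hSm.aemeasurable] at hi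
    have hΨ2 : Measurable fun w : Fn × Fn => tl s k b (w.1 + w.2) * F (shp k b (w.1 + w.2)) :=
      hΨ.comp measurable_add
    have hF1 : Measurable fun g => F (g + shp k b σ) := hF.comp (measurable_add_const _)
    have hF2 : Measurable fun g => F (g + σ) := hF.comp (measurable_add_const _)
    calc _ = ∫⁻ ω, tl s k b (M.ginf ω + σ + S ω) * F (shp k b (M.ginf ω + σ + S ω)) ∂M.P := by
          rw [← lintegral_prod _ hΨ2.aemeasurable, hl, ← hi, lintegral_map hΨ2 (hm.prodMk hSm)]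
      _ = ∫⁻ ω, ENNReal.ofReal (dens W (s • f k b) ω) *
            F (shp k b (M.ginf ω + S ω) + shp k b σ) ∂M.P := by
          refine lintegral_congr_ae ?_
          filter_upwards [hW.smul s (f k b), hf k b] with ω h1 h2
          have e1 : shp k b (M.ginf ω + σ + S ω) = shp k b (M.ginf ω + S ω) + shp k b σ := by
            ext z
            simp only [shp_apply, ContinuousMap.add_apply]
            ring
          rw [e1, tl, ee, dens, h1, ← h2, norm_smul, mul_pow, hn, Real.norm_eq_abs, sq_abs,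
            add_right_comm, ContinuousMap.add_apply _ σ, hσa]
          congr 3
          ring
      _ = ∫⁻ ω, F (shp k b (M.ginf ω + S ω) + σ) ∂M.P := by
          refine (hW.lintegral_tilt_eq _ (hF1.comp hX).aemeasurable).symm.trans ?_
          refine (lintegral_map hF1 hX).symm.trans ?_
          rw [hT, lintegral_map hF1 (hX.add_const _)]
          simp only [add_assoc, sub_add_cancel]
      _ = _ := by
          rw [← lintegral_map hF2 hX, lam_shape, lintegral_map hF2 M.meas_ginf,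
            lintegral_map hF hm]

end Pool.Agent.Lib.MP_0d9445_pr.Lin
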