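import Pool.Agent.Lib.MP_0d9445_pr.Lin.Out
import Pool.Agent.Lib.MP_0d9445_pr.Lin.Lam
import Pool.Agent.Lib.MP_0d9445_pr.AS.Main

/-! The exact time scale: the local law holds with constants. -/

open MeasureTheory ProbabilityTheory Set Filter Topology LQ.Met
open scoped ENNReal NNReal

noncomputable section

namespace Pool.Agent.Lib.MP_0d9445_pr.Lin

open HO PPP CR Cell EN

variable {M : Model}

theorem inst_scale (F : M.All) (g : Fn) (t : ℝ) :
    ∫⁻ x, ENNReal.ofReal (muX x) ∂M.Phat 0 W0 0 (g + HO.cst t) =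
      ee (M.γ * t) * ∫⁻ x, ENNReal.ofReal (muX x) ∂M.Phat 0 W0 0 g := by
  rw [lintegral_muX F.e0, lintegral_muX F.e0, ← lintegral_const_mul' _ _ (ee_ne_top _)]
  refine lintegral_congr_ae ((F.ew 0 g (g + HO.cst t)).mono fun ω k => ?_)
  beta_reduce
  rw [k.2, withDensity_apply _ measurableSet_S0]
  simp only [ContinuousMap.add_apply, cst_apply, add_sub_cancel_left, setLIntegral_const]
  rfl

theorem inst_pos (F : M.All) (g : Fn) :
    ∫⁻ x, ENNReal.ofReal (muX x) ∂M.Phat 0 W0 0 g ≠ 0 := by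
  rw [lintegral_muX F.e0]
  intro h
  obtain ⟨ω, h1, h2⟩ := (((lintegral_eq_zero_iff (measurable_mS.comp (M.measurable_cf 0 g))).1
    h).and (F.e0 0 g)).exists
  have := h2.2.2.1
  refine (((isOpen_osq y0 (1 / 2)).measure_pos (M.cf 0 g ω).2 ⟨y0, by simp [osq]⟩).trans_le
    (measure_mono fun z hz => ?_)).ne' h1
  rw [mem_osq_y0, abs_lt, abs_lt] at hz
  exact mem_S0.2 ⟨by linarith [hz.1.1], by linarith [hz.1.2], by linarith [hz.2.1],
    by linarith [hz.2.2]⟩

/-- the local law holds for every positive function that tends to a constant -/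
theorem inst_law (F : M.All) (R : AS.RefOK M) : ∃ A0 κ0 : ℝ, 0 ≤ A0 ∧ 1 / 2 ≤ κ0 ∧
    ∀ A : ℝ → ℝ, (∀ c, 0 < A c) → Tendsto A atTop (𝓝 A0) → AS.LocalLaw M A fun _ => κ0 := by
  obtain ⟨d, D, h7, e1, e2, e3, e4, e5, e6, e7, e8, Θ, hΘ, e9⟩ := exists_data F
  obtain ⟨Λ, l1, l2, l3, l4⟩ := exists_lam M D.γ
  have mmu : Measurable (α := EN.XL W0.o) muX := e7 ▸ D.mu_meas
  obtain ⟨A0, κ0, h0, hκ, h⟩ := outC (d := D) (Λ := Λ)
    ⟨l1, l2, fun θ hθ => e9 ▸ l3 Θ θ hΘ hθ, fun k j G hG => e8 ▸ l4 k _ G hG⟩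
    ⟨fun g t => by
      simp only [e3, e7, e1, lintegral_PL _ _ _ _ mmu.ennreal_ofReal]
      exact inst_scale F g t, fun g => by
      simp only [e3, e7, lintegral_PL _ _ _ _ mmu.ennreal_ofReal]
      exact inst_pos F g⟩
  refine ⟨A0, κ0, h0, hκ, fun A hA hA0 => ?_⟩
  have eb : ∀ η c, D.bad A (fun _ => κ0) η c = badX M.γ M.ξ d A (fun _ => κ0) η c := fun η c => by
    simp only [Data.bad, e1, e4, e5, e6, e7]
    rfl
  have mb : ∀ η c, MeasurableSet (D.bad A (fun _ => κ0) η c) := fun η c => by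
    have k : ∀ (t : ℝ) {f : EN.XL W0.o → ℝ}, Measurable f → MeasurableSet {x | t < |f x|} :=
      fun t f hf => measurableSet_lt measurable_const hf.norm
    exact D.Loc_meas.compl.union ((k _ ((D.nu_meas _).sub_const _)).union
      ((k _ ((D.nu_meas _).sub_const _)).union ((k _ ((D.nu_meas _).sub_const _)).union
        (k _ (D.pi_meas.sub (D.mu_meas.const_mul _))))))
  refine AS.localLaw_of R h7 hA (fun _ => hκ) (fun η c => eb η c ▸ mb η c)
    fun n b W hI η hη => ?_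
  have := Ginf_prob M
  have := lay_prob M 0 n
  refine (h A hA0 (boxLaw M n b)
    ⟨Measure.isProbabilityMeasure_map (measurable_box _ n b).aemeasurable, ?_⟩ η hη).congr
    fun c => ?_
  · rw [boxLaw, Measure.map_map measurable_fst (measurable_box _ n b), e2]
    exact shape_lay M n b
  · rw [ref_eq F hI c (eb η c ▸ mb η c), Data.rf, e3, ← eb]
    simp only [PL_set _ _ _ _ (mb η c)]
    rfl

/-- the local law holds with constants -/
theorem localLaw_const (F : M.All) (R : AS.RefOK M) :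
    ∃ A0 κ0 : ℝ, AS.LocalLaw M (fun _ => A0) fun _ => κ0 := by
  obtain ⟨A0, κ0, h0, hκ, h⟩ := inst_law F R
  rcases h0.eq_or_lt with rfl | h0
  swap
  · exact ⟨A0, κ0, h _ (fun _ => h0) tendsto_const_nhds⟩
  refine ⟨1, κ0, fun _ => one_pos, fun _ => hκ,
    fun Ω _ P S O N s Y hS n v ⟨W, hW, hWO, _⟩ => False.elim ?_⟩
  have hL := h (fun c => Real.exp (-c)) (fun _ => Real.exp_pos _)
    Real.tendsto_exp_neg_atTop_nhds_zero
  have hl : Tendsto (fun i : ℕ => (i : ℝ≥0)) atTop atTop := tendsto_natCast_atTop_atTop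
  obtain ⟨φ, hφ, hE⟩ := hS.env Walk.micro_ok F R hL hl
  have := hS.prob
  obtain ⟨ω, hE⟩ := hE.exists
  have hne : (interior W.c).Nonempty :=
    ⟨ctr n v, interior_maximal (osq_subset_csq _ _) (isOpen_osq _ _) (hW (by
      have := CR.sc_pos n
      constructor <;> simp only [sub_self, abs_zero] <;> positivity))⟩
  obtain ⟨lo, hi, hlo, hb⟩ := Walk.PfLocal.a_bdd Walk.geo_ok Walk.cs_ok Walk.nulow_ok hE
    (isCompact_csq _ _) hWO hne
  have ht := Real.tendsto_exp_neg_atTop_nhds_zero.comp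
    ((AS.Local_ht (M := M)).comp (hl.comp hφ.tendsto_atTop))
  exact hlo.not_ge (ge_of_tendsto ht (hb.mono fun _ a => a.1))

end Pool.Agent.Lib.MP_0d9445_pr.Lin
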