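import Pool.Agent.Lib.MP_0d9445_pr.Lin.Sub
import Pool.Agent.Lib.MP_0d9445_pr.Lin.Ident

/-! The exact time scale: the degree constant converges. -/

open MeasureTheory ProbabilityTheory Set Filter Topology
open scoped ENNReal NNReal

noncomputable section

namespace Pool.Agent.Lib.MP_0d9445_pr.Lin

open HO

variable {X : Type} [MeasurableSpace X] {d : Data X} {Λ : Measure Fn}

theorem kap_ph_mu (hm : Mass d) (g : Fn) (t : ℝ) :
    ph d d.γ d.mu g t = ph d d.γ d.mu g 0 := by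
  rw [ph, ph, hm.scale, hm.scale g 0, ← mul_assoc, ← mul_assoc, ← ee_add, ← ee_add]
  congr 2
  ring

theorem kap_toReal {s q : ℝ} {F : X → ℝ} (hF : Fun d s q F) {g : Fn} (hV : d.V g ≠ ∞) (t : ℝ) :
    Integrable F (d.P 0 (g + cst t)) ∧
      (ph d s F g t).toReal = Real.exp (-s * (g 0 + t)) * ∫ x, F x ∂d.P 0 (g + cst t) := by
  refine ⟨integrable_of_rpow _ hF.meas hF.nonneg hF.one_lt.le
    (ne_top_of_le_ne_top ?_ (hF.mom _)), ?_⟩
  · rw [d.V_cst]
    exact ENNReal.mul_ne_top (ENNReal.mul_ne_top ENNReal.coe_ne_top (ee_ne_top _)) hV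
  · rw [ph, ENNReal.toReal_mul, ee_toReal, integral_eq_lintegral_of_nonneg_ae
      (ae_of_all _ hF.nonneg) hF.meas.aestronglyMeasurable]

theorem kap_abs_le {s q : ℝ} {F : X → ℝ} (hF : Fun d s q F) {g : Fn} (hV : d.V g ≠ ∞) (t : ℝ) :
    |(ph d s F g t).toReal| ≤ ((1 + d.C) * d.V g).toReal := by
  rw [abs_of_nonneg ENNReal.toReal_nonneg]
  exact ENNReal.toReal_mono (ENNReal.mul_ne_top (by simp) hV) (ph_le hF g t)

theorem kap_pt (hm : Mass d) (h1 : d.Kap) {g : Fn} (h0 : g 0 = 0) (hV : d.V g ≠ ∞) (r : ℝ) :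
    Tendsto (fun b => (ph d d.γ d.pi g (b + r)).toReal - d.kap b * (ph d d.γ d.mu g 0).toReal)
      atTop (𝓝 0) := by
  refine Metric.tendsto_nhds.2 fun ε hε => ?_
  have hu : g + cst r ∈ d.Gd (max |r| (d.V g).toReal) := by
    refine ⟨by simp [h0], ?_⟩
    rw [d.V_cst]
    exact (ENNReal.ofReal_toReal hV).ge.trans (ENNReal.ofReal_le_ofReal (le_max_right _ _))
  filter_upwards [h1 (max |r| (d.V g).toReal) (ε / 2 * Real.exp (d.γ * r)) (by positivity)]
    with b hb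
  have h2 := hb _ hu
  have e : cst b + (g + cst r) = g + cst (b + r) := by
    rw [cst_add]
    abel
  obtain ⟨i1, e1⟩ := kap_toReal (fun_pi d) hV (b + r)
  obtain ⟨i2, e2⟩ := kap_toReal (fun_mu d) hV (b + r)
  rw [e, integral_sub i1 (i2.const_mul _), integral_const_mul] at h2
  rw [← kap_ph_mu hm g (b + r), e1, e2, Real.dist_eq, sub_zero, mul_left_comm, ← mul_sub, abs_mul,
    abs_of_pos (Real.exp_pos _)]
  refine (mul_le_mul_of_nonneg_left h2 (Real.exp_pos _).le).trans_lt ?_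
  rw [mul_assoc (ε / 2), mul_left_comm, ← Real.exp_add, ← Real.exp_add, h0,
    show -d.γ * (0 + (b + r)) + (d.γ * r + d.γ * b) = 0 by ring, Real.exp_zero]
  linarith

theorem kap_dct {S : Type} [MeasurableSpace S] (L : Measure S) [SFinite L] (ν : Measure ℝ)
    [IsProbabilityMeasure ν] {ψ : ℝ → S → ℝ → ℝ} {W : S → ℝ≥0∞}
    (hψ : ∀ b, Measurable (Function.uncurry (ψ b))) (hWm : Measurable W)
    (hW : ∫⁻ g, W g ∂L ≠ ∞) (hb : ∀ᶠ b in atTop, ∀ᵐ g ∂L, ∀ r, ‖ψ b g r‖ₑ ≤ W g)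
    (h0 : ∀ᵐ g ∂L, ∀ r, Tendsto (fun b => ψ b g r) atTop (𝓝 0)) :
    Tendsto (fun b => ∫⁻ g, ∫⁻ r, ‖ψ b g r‖ₑ ∂ν ∂L) atTop (𝓝 0) := by
  have hq := Measure.quasiMeasurePreserving_fst (μ := L) (ν := ν)
  have h1 := tendsto_lintegral_filter_of_dominated_convergence (μ := L.prod ν) (l := atTop)
    (F := fun b (w : S × ℝ) => ‖ψ b w.1 w.2‖ₑ) (f := fun _ => 0) (fun w => W w.1)
    (Eventually.of_forall fun b => (hψ b).enorm)
    (hb.mono fun b h => (hq.ae h).mono fun w hw => hw w.2)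
    (by
      rw [lintegral_prod (fun w : S × ℝ => W w.1) (hWm.comp measurable_fst).aemeasurable]
      simpa using hW)
    ((hq.ae h0).mono fun w hw => by simpa using (hw w.2).enorm)
  rw [lintegral_zero] at h1
  exact h1.congr fun b => lintegral_prod _ (hψ b).enorm.aemeasurable

theorem kap_conv (h : Inv d d.γ Λ) (hm : Mass d) (h1 : d.Kap) (h2 : d.KapB) :
    ∃ κ0, Tendsto d.kap atTop (𝓝 κ0) := by
  have hM : Measurable fun g => ph d d.γ d.mu g 0 :=
    (ph_meas d d.γ d.mu_meas).comp (measurable_id.prodMk measurable_const)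
  have hφ : Measurable (Function.uncurry fun g t => (ph d d.γ d.pi g t).toReal) :=
    (ph_meas d d.γ d.pi_meas).ennreal_toReal
  obtain ⟨k, hk⟩ := rho_neg h (u := (d.p - 1) * d.γ) (mul_pos (sub_pos.2 d.one_lt) d.γ_pos)
    (by nlinarith [d.zp, d.zγ]) hM (fun g => ph_le (fun_mu d) g 0)
    fun g => mul_ne_zero (ee_pos _).ne' (hm.pos _)
  obtain ⟨E, a, ha, hs⟩ := ph_sub h (fun_pi d) k fun g => (d.sub k g).mono fun x hx hx' => by
    rw [show -(2 - d.γ * d.Q + d.γ ^ 2 / 2) = 0 by linarith [d.zγ], zero_mul, Real.exp_zero,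
      one_mul]
    exact (hx hx'.1 hx'.2).2.le
  obtain ⟨K, hK⟩ := h2
  have hK' : ∀ᶠ b in atTop, |d.kap b| ≤ |K| := hK.mono fun b hb => by
    rw [abs_of_nonneg (by linarith [hb.1])]
    exact hb.2.trans (le_abs_self K)
  have := rho_prob h k
  have := h.prob
  have hV : ∫⁻ g, d.V g ∂Λ ≠ ∞ := by simpa using h.mom 1 zero_le_one
  have hV' : ∀ᵐ g ∂Λ, d.V g ≠ ∞ := (ae_lt_top d.V_meas hV).mono fun g hg => hg.ne
  refine conv_of (rho d d.γ Λ k) (U := fun g => ((1 + d.C) * d.V g).toReal) hφ hM.ennreal_toReal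
    ((rho_fin h k).mono fun w hw t => kap_abs_le (fun_pi d) hw.2 t)
    ((rho_fin h k).mono fun w hw => kap_abs_le (fun_mu d) hw.2 0) (rho_int h k) ha hs hk.ne hK' ?_
  rw [rho_fst h k]
  refine kap_dct Λ _ (ψ := fun b g r =>
      (ph d d.γ d.pi g (b + r)).toReal - d.kap b * (ph d d.γ d.mu g 0).toReal)
    (W := fun g => ENNReal.ofReal (1 + |K|) * ((1 + d.C) * d.V g)) (fun b => ?_)
    ((d.V_meas.const_mul _).const_mul _) ?_ (hK'.mono fun b hb => hV'.mono fun g hg r => ?_) ?_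
  · exact (hφ.comp (measurable_fst.prodMk (measurable_snd.const_add b))).sub
      ((hM.ennreal_toReal.comp measurable_fst).const_mul _)
  · rw [lintegral_const_mul _ (d.V_meas.const_mul _), lintegral_const_mul _ d.V_meas]
    exact ENNReal.mul_ne_top ENNReal.ofReal_ne_top (ENNReal.mul_ne_top (by simp) hV)
  · rw [Real.enorm_eq_ofReal_abs]
    refine le_trans (ENNReal.ofReal_le_ofReal (q := (1 + |K|) * ((1 + d.C) * d.V g).toReal) ?_) ?_
    · refine (abs_sub _ _).trans ?_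
      rw [abs_mul, add_mul, one_mul]
      exact add_le_add (kap_abs_le (fun_pi d) hg _)
        (mul_le_mul hb (kap_abs_le (fun_mu d) hg 0) (abs_nonneg _) (abs_nonneg K))
    · rw [ENNReal.ofReal_mul (by positivity)]
      exact mul_le_mul_right ENNReal.ofReal_toReal_le _
  · filter_upwards [h.zero, hV'] with g h0 hg r
    exact kap_pt hm h1 h0 hg r

end Pool.Agent.Lib.MP_0d9445_pr.Lin
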