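import Pool.Agent.Lib.MP_0d9445_pr.Lin.Inst
import Pool.Agent.Lib.MP_0d9445_pr.Fin.Aut

/-! The exact time scale: the five surfaces. -/

open MeasureTheory ProbabilityTheory Set Filter Topology Real LQ.Met
open scoped NNReal ENNReal

noncomputable section

namespace Pool.Agent.Lib.MP_0d9445_pr.Lin

open CR PPP Walk Cell BM AS Bd Fin

theorem main_lin (M : Model) : ∃ c : ℝ, 0 < c ∧
    ∀ (Ω : Type) [MeasurableSpace Ω] (P : Measure Ω) [IsProbabilityMeasure P]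
      (h : Ω → Field) (f : Ω → ℂ → ℝ) (O : Set ℂ) (d : Ω → Met) (m : Ω → Measure ℂ)
      (Y : ℝ≥0 → Ω → Set ℂ),
      (IsCone M.γ M.Q P h f ∧ O = univ ∧ IsSurf M.γ M.ξ M.D M.μ {0} P h f d m ∨
        IsSphere M.γ M.Q M.μ P h f ∧ O = univ ∧ IsSurf M.γ M.ξ M.D M.μ {0, 1} P h f d m ∨
        IsWedge M.γ M.Q P h f ∧ O = UH ∧ IsSurfVia M.γ M.ξ M.D M.μ id O P h f d m ∨
        (∃ ℓ > 0, IsDisk M.γ M.Q ℓ P h f) ∧ O = Metric.ball 0 1 ∧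
          IsSurfVia M.γ M.ξ M.D M.μ cayley O P h f d m ∨
        (∃ ℓ > 0, ∃ a > 0, IsDiskArea M.γ M.ξ M.Q M.D M.μ ℓ a P d m) ∧ O = Metric.ball 0 1) →
      (∀ l, IsPPP P d m l (Y l)) →
      ∀ l : ℕ → ℝ≥0, Tendsto l atTop atTop → ∃ φ : ℕ → ℕ, StrictMono φ ∧ ∀ᵐ ω ∂P,
        ∀ ψ, IsAut O ψ → ∀ d' : Met,
          (∀ x ∈ closure O, ∀ y ∈ closure O, d' (ψ x, ψ y) = d ω (x, y)) →
          Out2 O d' ((m ω).map ψ) (fun n => ψ '' Y (l (φ n)) ω) fun n => c * l (φ n) := by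
  have F := M.all
  have R := refOK F
  obtain ⟨A, κ, hL⟩ := localLaw_const F R
  have hA : 0 < A := hL.1 0
  have hκ : 0 < κ := lt_of_lt_of_le (by norm_num) (hL.2.1 0)
  refine ⟨κ / (2 * A), by positivity, fun Ω _ P _ h f O d m Y hc hY l₀ hl₀ => ?_⟩
  obtain ⟨n₀, hn⟩ := eventually_atTop.1 (hl₀.eventually (eventually_gt_atTop 0))
  have hl : Tendsto (fun n => l₀ (n + n₀)) atTop atTop := hl₀.comp (tendsto_add_atTop_nat n₀)
  set l : ℕ → ℝ≥0 := fun n => l₀ (n + n₀) with hl'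
  obtain ⟨φ, hφ, k⟩ : ∃ φ : ℕ → ℕ, StrictMono φ ∧ ∀ᵐ ω ∂P, OutA O (d ω) (m ω)
      (fun n => Y (l (φ n)) ω) fun n => tau M.γ (fun _ => A) (fun _ => κ) (l (φ n)) := by
    rcases hc with ⟨a, rfl, b⟩ | ⟨a, rfl, b⟩ | ⟨a, rfl, b⟩ | ⟨⟨ℓ, hℓ, a⟩, rfl, b⟩ |
      ⟨⟨ℓ, hℓ, a, -, b⟩, rfl⟩
    · exact plane_aut F R hL (Or.inl ⟨a, rfl⟩) b hY hl
    · exact plane_aut F R hL (Or.inr ⟨a, rfl⟩) b hY hl
    · exact pack_aut F R hL (Or.inl rfl) (Fx.pack_wedge F R a b) hY hl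
    · exact pack_aut F R hL (Or.inr rfl) (Fx.pack_disk F R hℓ a b) hY hl
    · exact Fx.transfer F R hℓ b hY (C := fun φ d m Y => OutA (Metric.ball 0 1) d m
        (fun n => Y (l (φ n))) fun n => tau M.γ (fun _ => A) (fun _ => κ) (l (φ n)))
        fun _ _ _ _ _ _ _ hp hY => pack_aut F R hL (Or.inr rfl) hp hY hl
  have e : (fun n => tau M.γ (fun _ => A) (fun _ => κ) (l (φ n))) =
      fun n => κ / (2 * A) * l₀ (φ n + n₀) := funext fun n => by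
    rw [tau, if_neg (hn _ (Nat.le_add_left _ _)).ne']
    ring
  rw [e] at k
  exact ⟨fun n => φ n + n₀, hφ.add_const n₀, k⟩

end Pool.Agent.Lib.MP_0d9445_pr.Lin
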