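import Pool.Agent.Lib.MP_0d9445_pr.Lin.Sub
import Pool.Agent.Lib.MP_0d9445_pr.Lin.Ident

/-! The exact time scale: the energy constant converges. -/

open MeasureTheory ProbabilityTheory Set Filter Topology
open scoped ENNReal NNReal

noncomputable section

namespace Pool.Agent.Lib.MP_0d9445_pr.Lin

open HO

variable {X : Type} [MeasurableSpace X] (d : Data X)

theorem nu_mean (μ : Measure X) [IsProbabilityMeasure μ] {f : X → ℝ} (hf : Measurable f)
    (h0 : ∀ x, 0 ≤ f x) (a : ℝ) :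
    ‖(∫⁻ x, ENNReal.ofReal (f x) ∂μ).toReal - a‖ₑ ≤ ∫⁻ x, ‖f x - a‖ₑ ∂μ := by
  rcases eq_or_ne (∫⁻ x, ‖f x - a‖ₑ ∂μ) ∞ with h | h
  · rw [h]
    exact le_top
  have h1 : Integrable (fun x => f x - a) μ := ⟨(hf.sub_const a).aestronglyMeasurable, h.lt_top⟩
  have h2 : Integrable f μ := (h1.add (integrable_const a)).congr
    (ae_of_all _ fun x => sub_add_cancel (f x) a)
  rw [← integral_eq_lintegral_of_nonneg_ae (ae_of_all _ h0) hf.aestronglyMeasurable]
  refine le_trans (le_of_eq ?_) (enorm_integral_le_lintegral_enorm _)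
  rw [integral_sub h2 (integrable_const a)]
  simp

theorem nu_split (μ : Measure X) [IsProbabilityMeasure μ] {f : X → ℝ} (hf : Measurable f)
    {G : X → ℝ≥0∞} {B : Set X} (hB : MeasurableSet B) {u v t : ℝ≥0∞}
    (h : ∀ x, G x ≤ (u + ENNReal.ofReal (f x ^ 2)) * v + B.indicator (fun _ => t) x) :
    ∫⁻ x, G x ∂μ ≤ (u + ∫⁻ x, ENNReal.ofReal (f x ^ 2) ∂μ) * v + t * μ B := by
  have h1 : Measurable fun x => u + ENNReal.ofReal (f x ^ 2) :=
    measurable_const.add (hf.pow_const 2).ennreal_ofReal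
  refine (lintegral_mono h).trans (le_of_eq ?_)
  rw [lintegral_add_left (h1.mul_const v), lintegral_mul_const v h1,
    lintegral_add_left measurable_const, lintegral_indicator_const hB]
  simp

theorem nu_gen (μ : ℝ → Measure X) [∀ b, IsProbabilityMeasure (μ b)] {f : X → ℝ}
    (hf : Measurable f) (h0 : ∀ x, 0 ≤ f x) {W : ℝ≥0∞} (hW : W ≠ ∞)
    (h2 : ∀ b, ∫⁻ x, ENNReal.ofReal (f x ^ 2) ∂μ b ≤ W) {A : ℝ → ℝ} (hA : ∀ c, 0 < A c)
    (h : ∀ η, 0 < η → Tendsto (fun c => μ c {x | η < |f x - A c|}) atTop (𝓝 0)) :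
    ∃ K, (∀ᶠ b in atTop, |A b| ≤ K) ∧
      Tendsto (fun b => ∫⁻ x, ‖f x - A b‖ₑ ∂μ b) atTop (𝓝 0) := by
  have hB : ∀ η a : ℝ, MeasurableSet {x | η < |f x - a|} := fun η a =>
    measurableSet_lt measurable_const (hf.sub_const a).abs
  have hK : ∀ᶠ b in atTop, |A b| ≤ 2 * (2 + W.toReal) := by
    filter_upwards [ENNReal.tendsto_nhds_zero.1 (h 1 one_pos) (ENNReal.ofReal (1 / 2)) (by simp)]
      with b hb
    have h3 := nu_split (μ b) hf (G := fun _ => ENNReal.ofReal (A b)) (hB 1 (A b))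
      (u := ENNReal.ofReal 2) (v := 1) (t := ENNReal.ofReal (A b)) fun x => by
        by_cases hx : x ∈ {x | 1 < |f x - A b|}
        · rw [indicator_of_mem hx]
          exact le_add_self
        · rw [indicator_of_notMem hx, add_zero, mul_one,
            ← ENNReal.ofReal_add zero_le_two (sq_nonneg _)]
          have h4 := (abs_le.1 (show |f x - A b| ≤ 1 from not_lt.1 hx)).1
          exact ENNReal.ofReal_le_ofReal (by nlinarith [sq_nonneg (f x - 1)])
    rw [lintegral_const, measure_univ, mul_one, mul_one] at h3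
    have h4 : ENNReal.ofReal (A b) ≤ ENNReal.ofReal (2 + W.toReal + A b * (1 / 2)) := by
      rw [ENNReal.ofReal_add (by positivity) (by linarith [hA b]),
        ENNReal.ofReal_add zero_le_two ENNReal.toReal_nonneg, ENNReal.ofReal_toReal hW,
        ENNReal.ofReal_mul (hA b).le]
      exact h3.trans (by gcongr; exact h2 b)
    rw [ENNReal.ofReal_le_ofReal_iff (by have := hA b; positivity)] at h4
    rw [abs_of_pos (hA b)]
    linarith
  refine ⟨_, hK, ENNReal.tendsto_nhds_zero.2 fun ε hε => ?_⟩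
  have hε2 : 0 < ε / 2 := ENNReal.half_pos hε.ne'
  have h3 := ENNReal.Tendsto.const_mul (a := 1 + W) ENNReal.tendsto_inv_nat_nhds_zero
    (Or.inr (ENNReal.add_ne_top.2 ⟨ENNReal.one_ne_top, hW⟩))
  rw [mul_zero] at h3
  obtain ⟨n, hn1, hn2⟩ := ((ENNReal.tendsto_nhds_zero.1 h3 _ hε2).and (eventually_gt_atTop 0)).exists
  have hn : (0 : ℝ) < n := Nat.cast_pos.2 hn2
  have h4 := ENNReal.Tendsto.const_mul (a := ENNReal.ofReal (n + 2 * (2 + W.toReal)))
    (h (n : ℝ)⁻¹ (inv_pos.2 hn)) (Or.inr ENNReal.ofReal_ne_top)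
  rw [mul_zero] at h4
  filter_upwards [hK, ENNReal.tendsto_nhds_zero.1 h4 _ hε2] with b hb1 hb2
  refine (nu_split (μ b) hf (hB (n : ℝ)⁻¹ (A b)) (u := 1) (v := (n : ℝ≥0∞)⁻¹)
    (t := ENNReal.ofReal (n + 2 * (2 + W.toReal))) fun x => ?_).trans ?_
  · have e : (1 + ENNReal.ofReal (f x ^ 2)) * (n : ℝ≥0∞)⁻¹ =
        ENNReal.ofReal ((1 + f x ^ 2) * (n : ℝ)⁻¹) := by
      rw [ENNReal.ofReal_mul (by positivity), ENNReal.ofReal_add zero_le_one (sq_nonneg _),
        ENNReal.ofReal_one, ENNReal.ofReal_inv_of_pos hn, ENNReal.ofReal_natCast]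
    rw [e, Real.enorm_eq_ofReal_abs]
    have h5 : 0 ≤ f x ^ 2 * (n : ℝ)⁻¹ := by positivity
    by_cases hx : x ∈ {x | (n : ℝ)⁻¹ < |f x - A b|}
    · rw [indicator_of_mem hx, ← ENNReal.ofReal_add (by positivity) (by positivity)]
      refine ENNReal.ofReal_le_ofReal ?_
      have h6 : f x ≤ f x ^ 2 * (n : ℝ)⁻¹ + n := by
        rw [← div_eq_mul_inv, div_add' _ _ _ hn.ne', le_div_iff₀ hn]
        nlinarith [sq_nonneg (f x - n), h0 x]
      have h7 := abs_sub (f x) (A b)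
      rw [abs_of_nonneg (h0 x)] at h7
      have h8 := inv_pos.2 hn
      linarith
    · rw [indicator_of_notMem hx, add_zero]
      refine ENNReal.ofReal_le_ofReal ?_
      have h6 : |f x - A b| ≤ (n : ℝ)⁻¹ := not_lt.1 hx
      linarith
  · rw [← ENNReal.add_halves ε]
    exact add_le_add (le_trans (by gcongr; exact h2 b) hn1) hb2

theorem nu_rfM (b : ℝ) {F : X → ℝ≥0∞} (hF : Measurable F) :
    ∫⁻ x, F x ∂d.rfM (d.Ginf.map fun g => (g, (0 : ℝ))) b =
      ∫⁻ g, ∫⁻ r, ∫⁻ x, F x ∂d.P 0 (g + cst (b + r)) ∂gaussianReal 0 1 ∂d.Ginf := by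
  have hmk : Measurable fun g : Fn => (g, (0 : ℝ)) := measurable_id.prodMk measurable_const
  have h1 := (d.measurable_lintegral_P hF).comp (Data.measurable_rf_arg b)
  rw [Data.rfM, Measure.lintegral_bind (d.P 0).aemeasurable hF.aemeasurable,
    lintegral_map (d.measurable_lintegral_P hF) (Data.measurable_rf_arg b),
    lintegral_prod (fun w : (Fn × ℝ) × ℝ =>
      ∫⁻ x, F x ∂d.P 0 (cst b + (w.1.1 + cst (w.1.2 + w.2)))) h1.aemeasurable,
    lintegral_map (f := fun w : Fn × ℝ => ∫⁻ r,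
      ∫⁻ x, F x ∂d.P 0 (cst b + (w.1 + cst (w.2 + r))) ∂gaussianReal 0 1)
      h1.lintegral_prod_right' hmk]
  simp only [zero_add, cst_add, add_left_comm]

theorem nu_conv {A : ℝ → ℝ} (hA : ∀ c, 0 < A c)
    (h : ∀ L, d.Adm L → ∀ η, 0 < η →
      Tendsto (fun c => d.rf L c {x | η < |d.nu 1 x - A c|}) atTop (𝓝 0)) :
    ∃ A0, Tendsto A atTop (𝓝 A0) := by
  have hmk : Measurable fun g : Fn => (g, (0 : ℝ)) := measurable_id.prodMk measurable_const
  have hL : d.Adm (d.Ginf.map fun g => (g, (0 : ℝ))) :=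
    ⟨Measure.isProbabilityMeasure_map hmk.aemeasurable, by
      rw [Measure.map_map measurable_fst hmk]
      exact Measure.map_id⟩
  have := d.rfM_prob hL
  have hV : ∫⁻ g, d.V g ∂d.Ginf ≠ ∞ := by simpa using d.V_Ginf 1
  obtain ⟨K, hK, h0⟩ := nu_gen (d.rfM (d.Ginf.map fun g => (g, (0 : ℝ)))) (d.nu_meas 1)
    (d.nu_nonneg 1) (W := d.C * ∫⁻ g, d.V g ∂d.Ginf) (ENNReal.mul_ne_top ENNReal.coe_ne_top hV)
    (fun b => by
      rw [nu_rfM d b ((d.nu_meas 1).pow_const 2).ennreal_ofReal, ← lintegral_const_mul _ d.V_meas]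
      refine lintegral_mono fun g => ?_
      refine (lintegral_mono fun r => d.K_nu _ 1 (by simp)).trans ?_
      simp [d.V_cst]) hA fun η hη => (h _ hL η hη).congr fun c => d.rf_eq hL c
      (measurableSet_lt measurable_const ((d.nu_meas 1).sub_const _).abs)
  have h1 : ∀ g, (1 : ℝ≥0∞) ≤ (1 + d.C) * d.V g := fun g =>
    one_le_mul_of_one_le_of_one_le le_self_add (d.one_le_V g)
  obtain ⟨k, hk⟩ := rho_neg (inv_zero d) d.γ_pos (by linarith [d.zγ]) (M := fun _ => 1)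
    measurable_const h1 fun _ => one_ne_zero
  have := rho_prob (inv_zero d) k
  obtain ⟨E, a, ha, hs⟩ := ph_sub (inv_zero d) (fun_nu d) k fun g => by
    filter_upwards [d.sub k g] with x hx hx'
    refine ((hx hx'.1 hx'.2).1 1).trans (le_of_eq ?_)
    have e : Real.exp (-(2 - 0 * d.Q + 0 ^ 2 / 2) * (k * Real.log 2)) = (4 ^ k)⁻¹ := by
      rw [show -(2 - 0 * d.Q + 0 ^ 2 / 2) * (k * Real.log 2) = -(k * (2 * Real.log 2)) by ring,
        Real.exp_neg, Real.exp_nat_mul, two_mul, Real.exp_add, Real.exp_log two_pos]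
      norm_num
    rw [e, div_eq_inv_mul]
  have hfin : ∀ᵐ w ∂rho d 0 d.Ginf k, (1 + (d.C : ℝ≥0∞)) * d.V w.1 ≠ ∞ :=
    (rho_fin (inv_zero d) k).mono fun w hw => ENNReal.mul_ne_top (by simp) hw.2
  refine conv_of (rho d 0 d.Ginf k) (φ := fun g t => (ph d 0 (d.nu 1) g t).toReal)
    (U := fun g => ((1 + d.C) * d.V g).toReal) (M := fun _ => (1 : ℝ≥0∞).toReal)
    (ph_meas d 0 (d.nu_meas 1)).ennreal_toReal measurable_const
    (hfin.mono fun w hw t => ?_) (hfin.mono fun w hw => ?_) (rho_int (inv_zero d) k) ha hs hk.ne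
    hK ?_
  · rw [abs_of_nonneg ENNReal.toReal_nonneg]
    exact ENNReal.toReal_mono hw (ph_le (fun_nu d) _ _)
  · rw [abs_of_nonneg ENNReal.toReal_nonneg]
    exact ENNReal.toReal_mono hw (h1 _)
  · rw [rho_fst (inv_zero d) k]
    refine tendsto_of_tendsto_of_tendsto_of_le_of_le tendsto_const_nhds h0 (fun _ => zero_le)
      fun b => ?_
    simp only
    rw [nu_rfM d b ((d.nu_meas 1).sub_const _).enorm]
    refine lintegral_mono fun g => lintegral_mono fun r => ?_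
    simpa [ph] using nu_mean (d.P 0 (g + cst (b + r))) (d.nu_meas 1) (d.nu_nonneg 1) (A b)

end Pool.Agent.Lib.MP_0d9445_pr.Lin
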