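import Pool.Agent.Lib.MP_0d9445_pr.Lin.Nu
import Pool.Agent.Lib.MP_0d9445_pr.Lin.Kap

/-! The exact time scale: the output of the homogenisation with constants. -/

open MeasureTheory ProbabilityTheory Set Filter Topology
open scoped ENNReal NNReal

noncomputable section

namespace Pool.Agent.Lib.MP_0d9445_pr.Lin

open HO

variable {X : Type} [MeasurableSpace X] {d : Data X} {Λ : Measure Fn}

theorem out_int (d : Data X) (R0 c : ℝ) {u : Fn} (hu : u ∈ d.Gd R0) :
    ∫⁻ x, ENNReal.ofReal (d.mu x) ∂d.P 0 (cst c + u) ≤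
      ENNReal.ofReal (Real.exp (d.γ * c) * (Real.exp (d.γ * R0) * (1 + d.C) * R0)) := by
  have h1 := ph_le (fun_mu d) u c
  have hR : 0 ≤ R0 := (abs_nonneg _).trans hu.1
  have hγ := d.γ_pos
  have e1 : ee (d.γ * (u 0 + c)) * ee (-d.γ * (u 0 + c)) = 1 := by
    rw [← ee_add, show d.γ * (u 0 + c) + -d.γ * (u 0 + c) = 0 by ring, ee, Real.exp_zero,
      ENNReal.ofReal_one]
  have e2 : ee (d.γ * (u 0 + c)) ≤ ee (d.γ * c) * ee (d.γ * R0) := by
    rw [← ee_add]
    refine ee_mono ?_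
    have := (abs_le.1 hu.1).2
    nlinarith
  calc ∫⁻ x, ENNReal.ofReal (d.mu x) ∂d.P 0 (cst c + u)
      = ee (d.γ * (u 0 + c)) * ph d d.γ d.mu u c := by
        rw [ph, ← mul_assoc, e1, one_mul, add_comm u]
    _ ≤ ee (d.γ * c) * ee (d.γ * R0) * ((1 + d.C) * ENNReal.ofReal R0) :=
        mul_le_mul' e2 (h1.trans (mul_le_mul_right hu.2 _))
    _ = _ := by
        rw [ENNReal.ofReal_mul (Real.exp_pos _).le, ENNReal.ofReal_mul (by positivity),
          ENNReal.ofReal_mul (Real.exp_pos _).le, ENNReal.ofReal_add zero_le_one (NNReal.coe_nonneg d.C),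
          ENNReal.ofReal_one, ENNReal.ofReal_coe_nnreal, ee, ee]
        ring

theorem out_mu (d : Data X) {κ0 η : ℝ} (hκ : Tendsto d.kap atTop (𝓝 κ0)) (hη : 0 < η)
    (R0 ε : ℝ) (hε : 0 < ε) : ∀ᶠ c in atTop, ∀ u ∈ d.Gd R0,
      d.P 0 (cst c + u) {x | η * Real.exp (d.γ * c) < |d.kap c - κ0| * d.mu x} ≤
        ENNReal.ofReal ε := by
  obtain ⟨D, hD⟩ : ∃ D, D = |Real.exp (d.γ * R0) * (1 + d.C) * R0| + 1 := ⟨_, rfl⟩
  have hD0 : 0 < D := by rw [hD]; positivity
  have hδ : 0 < η * ε / D := by positivity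
  filter_upwards [Metric.tendsto_nhds.1 hκ _ hδ] with c hc u hu
  rw [Real.dist_eq] at hc
  have he := Real.exp_pos (d.γ * c)
  have ht : 0 < Real.exp (d.γ * c) * D / ε := by positivity
  have h1 := meas_ge_le_lintegral_div (μ := d.P 0 (cst c + u))
    d.mu_meas.ennreal_ofReal.aemeasurable (ENNReal.ofReal_pos.2 ht).ne' ENNReal.ofReal_ne_top
  refine le_trans (measure_mono fun x hx => ?_) (h1.trans ?_)
  · refine ENNReal.ofReal_le_ofReal ?_
    have h2 : η * Real.exp (d.γ * c) < |d.kap c - κ0| * d.mu x := hx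
    have h3 := mul_le_mul_of_nonneg_right hc.le (d.mu_nonneg x)
    have h4 : η * Real.exp (d.γ * c) ≤ η * ε / D * d.mu x := by linarith
    rw [div_mul_eq_mul_div, le_div_iff₀ hD0] at h4
    rw [div_le_iff₀ hε]
    refine le_of_mul_le_mul_left ?_ hη
    linarith
  · refine ENNReal.div_le_of_le_mul ((out_int d R0 c hu).trans ?_)
    rw [← ENNReal.ofReal_mul hε.le]
    refine ENNReal.ofReal_le_ofReal ?_
    rw [mul_div_cancel₀ _ hε.ne', hD]
    exact mul_le_mul_of_nonneg_left ((le_abs_self _).trans (by linarith)) he.le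

theorem outC (h : Inv d d.γ Λ) (hm : Mass d) : OutC d := by
  have hl := lln_of d fl
  have h5 := locS d
  have h4 := refT d
  have h3 := kapB d
  have hk := kap_of d (cmg d) (piAdd_of d h5) h3
  have h2 := deg_of d hl (tight d) hk h3 h5
  obtain ⟨A1, hA1, hN⟩ := nu_of d (near_of d h4 (cut_of d (mom d)) (mean_of d hl (tight d) (cm0 d))
    (defect_of d (HO.avg d) h5) (child d)) (iso_of d h5)
  obtain ⟨A0, hA0⟩ := nu_conv d hA1 fun L hL η hη =>
    tendsto_of_tendsto_of_tendsto_of_le_of_le tendsto_const_nhds (hN L hL η hη)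
      (fun _ => zero_le) fun c => d.rf_mono L c fun x hx => Or.inl hx
  obtain ⟨κ0, hκ⟩ := kap_conv h hm hk h3
  obtain ⟨K, hK⟩ := h3
  refine ⟨A0, κ0, ge_of_tendsto' hA0 fun c => (hA1 c).le,
    ge_of_tendsto hκ (hK.mono fun c hc => hc.1), fun A hA L hL η hη => ?_⟩
  have hη2 : 0 < η / 2 := half_pos hη
  have t1 := PfDeg_rf d h4 hL (fun _ => (d.allLoc 0)ᶜ) fun R0 ε hε => PfDeg_loc d h5 0 R0 ε hε
  have t2 := hN L hL _ hη2
  have t3 := PfDeg_rf d h4 hL
    (fun c => {x | η / 2 * Real.exp (d.γ * c) < |d.pi x - d.kap c * d.mu x|}) fun R0 ε hε => by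
      filter_upwards [h2 R0 (min (η / 2) ε) (lt_min hη2 hε)] with c hc u hu
      refine le_trans (measure_mono fun x hx => ?_)
        ((hc u hu).trans (ENNReal.ofReal_le_ofReal (min_le_right _ _)))
      exact lt_of_le_of_lt
        (mul_le_mul_of_nonneg_right (min_le_left _ _) (Real.exp_pos _).le) hx
  have t4 := PfDeg_rf d h4 hL
    (fun c => {x | η / 2 * Real.exp (d.γ * c) < |d.kap c - κ0| * d.mu x})
    fun R0 ε hε => out_mu d hκ hη2 R0 ε hε
  have t := ((t1.add t2).add t3).add t4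
  rw [add_zero, add_zero, add_zero] at t
  refine tendsto_of_tendsto_of_tendsto_of_le_of_le' tendsto_const_nhds t
    (Eventually.of_forall fun _ => zero_le) ?_
  have hAA : Tendsto (fun c => A c - A1 c) atTop (𝓝 0) := by
    simpa using hA.sub hA0
  filter_upwards [Metric.tendsto_nhds.1 hAA (η / 4) (by positivity)] with c hc
  rw [Real.dist_eq, sub_zero, abs_lt] at hc
  have m0 : ∀ (q : ℂ) (r : ℝ), MeasurableSet {x | η / 2 < |d.nu q x - r|} := fun q r =>
    measurableSet_lt measurable_const ((d.nu_meas q).sub_const r).abs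
  have m1 := (d.measurableSet_allLoc 0).compl
  have m2 : MeasurableSet {x | η / 2 < |d.nu 1 x - A1 c| ∨ η / 2 < |d.nu Complex.I x - A1 c| ∨
      η / 2 < |d.nu (1 + Complex.I) x - 2 * A1 c|} := (m0 _ _).union ((m0 _ _).union (m0 _ _))
  have m3 : MeasurableSet {x | η / 2 * Real.exp (d.γ * c) < |d.pi x - d.kap c * d.mu x|} :=
    measurableSet_lt measurable_const (d.pi_meas.sub (d.mu_meas.const_mul _)).abs
  have m4 : MeasurableSet {x | η / 2 * Real.exp (d.γ * c) < |d.kap c - κ0| * d.mu x} :=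
    measurableSet_lt measurable_const (d.mu_meas.const_mul _)
  refine le_trans (d.rf_mono L c ?_) ((PfDeg_union d hL c ((m1.union m2).union m3) m4).trans
    (add_le_add_left ((PfDeg_union d hL c (m1.union m2) m3).trans
      (add_le_add_left (PfDeg_union d hL c m1 m2) _)) _))
  have key : ∀ a b b' : ℝ, η < |a - b| → |b - b'| ≤ η / 2 → η / 2 < |a - b'| := by
    intro a b b' h1 h2
    have := abs_sub_le a b' b
    rw [abs_sub_comm b' b] at this
    linarith
  have k1 : |A c - A1 c| ≤ η / 2 := abs_le.2 ⟨by linarith [hc.1], by linarith [hc.2]⟩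
  have k2 : |2 * A c - 2 * A1 c| ≤ η / 2 := abs_le.2 ⟨by linarith [hc.1], by linarith [hc.2]⟩
  rintro x (hx | hx | hx | hx | hx)
  · exact Or.inl (Or.inl (Or.inl fun k => hx k.1))
  · exact Or.inl (Or.inl (Or.inr (Or.inl (key _ _ _ hx k1))))
  · exact Or.inl (Or.inl (Or.inr (Or.inr (Or.inl (key _ _ _ hx k1)))))
  · exact Or.inl (Or.inl (Or.inr (Or.inr (Or.inr (key _ _ _ hx k2)))))
  · by_cases h6 : η / 2 * Real.exp (d.γ * c) < |d.pi x - d.kap c * d.mu x|
    · exact Or.inl (Or.inr h6)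
    · refine Or.inr ?_
      have h7 : η * Real.exp (d.γ * c) < |d.pi x - κ0 * d.mu x| := hx
      have h8 := abs_sub_le (d.pi x) (d.kap c * d.mu x) (κ0 * d.mu x)
      rw [← sub_mul, abs_mul, abs_of_nonneg (d.mu_nonneg x)] at h8
      show η / 2 * Real.exp (d.γ * c) < |d.kap c - κ0| * d.mu x
      linarith [not_lt.1 h6]

end Pool.Agent.Lib.MP_0d9445_pr.Lin
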