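import Pool.Agent.Lib.MP_0d9445_pr.Lin.Defs

/-! The exact time scale: the tilted step. -/

open MeasureTheory ProbabilityTheory Set Filter Topology
open scoped ENNReal NNReal

noncomputable section

namespace Pool.Agent.Lib.MP_0d9445_pr.Lin

open HO

variable {X : Type} [MeasurableSpace X] {d : Data X} {s : ℝ} {Λ : Measure Fn}

theorem rho_aux_tl (s : ℝ) (k : ℕ) (b : ℂ) : Measurable (tl s k b) :=
  measurable_ee.comp (((measurable_ev b).const_mul s).sub measurable_const)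

theorem rho_aux_map (d : Data X) (k : ℕ) (j : Ix k) : Measurable fun w : Fn × Fn =>
    (shp k (cor k j) (w.1 + w.2), d.kid k j (w.1 + w.2) 0) :=
  ((measurable_shp _ _).comp measurable_add).prodMk
    ((measurable_ev 0).comp ((d.measurable_kid k j).comp measurable_add))

theorem rho_aux_four (k : ℕ) (t : ℝ≥0∞) : (4 ^ k : ℝ≥0∞)⁻¹ * ∑ _j : Ix k, t = t := by
  rw [sum_const_Ix', ← mul_assoc, ENNReal.inv_mul_cancel (by simp) (by simp), one_mul]

theorem inv_zero (d : Data X) : Inv d 0 d.Ginf := by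
  refine ⟨d.Ginf_prob, d.Ginf_zero, fun θ _ => d.V_Ginf θ, fun k j F hF => ?_⟩
  have hm : Measurable fun w : Fn × Fn => shp k (cor k j) (w.1 + w.2) :=
    (measurable_shp _ _).comp measurable_add
  conv_rhs => rw [← d.shape k j]
  rw [lintegral_map hF hm, lintegral_prod (fun w : Fn × Fn => F (shp k (cor k j) (w.1 + w.2)))
    (hF.comp hm).aemeasurable]
  simp [tl]

theorem lintegral_rho (h : Inv d s Λ) (k : ℕ) {F : Fn × ℝ → ℝ≥0∞} (hF : Measurable F) :
    ∫⁻ w, F w ∂rho d s Λ k = (4 ^ k : ℝ≥0∞)⁻¹ * ∑ j : Ix k, ∫⁻ g, ∫⁻ η,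
      tl s k (cor k j) (g + η) * F (shp k (cor k j) (g + η), d.kid k j (g + η) 0)
        ∂d.lay k ∂Λ := by
  have := h.prob
  rw [rho, lintegral_smul_measure, lintegral_finsetSum_measure, smul_eq_mul]
  congr 1
  refine Finset.sum_congr rfl fun j _ => ?_
  have h1 : Measurable fun w : Fn × Fn => tl s k (cor k j) (w.1 + w.2) :=
    (rho_aux_tl s k _).comp measurable_add
  have h2 : Measurable fun w : Fn × Fn =>
      F (shp k (cor k j) (w.1 + w.2), d.kid k j (w.1 + w.2) 0) := hF.comp (rho_aux_map d k j)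
  rw [lintegral_map hF (rho_aux_map d k j), lintegral_withDensity_eq_lintegral_mul _ h1 h2,
    lintegral_prod _ (h1.mul h2).aemeasurable]
  rfl

theorem rho_fst (h : Inv d s Λ) (k : ℕ) : (rho d s Λ k).map Prod.fst = Λ := by
  refine Measure.ext_of_lintegral _ fun F hF => ?_
  rw [lintegral_map hF measurable_fst, lintegral_rho h k (F := fun w => F w.1)
    (hF.comp measurable_fst)]
  simp only [h.inv k _ F hF]
  exact rho_aux_four k _

theorem rho_prob (h : Inv d s Λ) (k : ℕ) : IsProbabilityMeasure (rho d s Λ k) := by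
  have := h.prob
  refine ⟨?_⟩
  rw [← preimage_univ (f := Prod.fst), ← Measure.map_apply measurable_fst MeasurableSet.univ,
    rho_fst h k, measure_univ]

theorem rho_fin (h : Inv d s Λ) (k : ℕ) : ∀ᵐ w ∂rho d s Λ k, w.1 0 = 0 ∧ d.V w.1 ≠ ∞ := by
  have h1 : ∀ᵐ g ∂Λ, d.V g < ∞ :=
    ae_lt_top d.V_meas (by simpa using h.mom 1 zero_le_one)
  have h2 : ∀ᵐ g ∂(rho d s Λ k).map Prod.fst, g 0 = 0 ∧ d.V g ≠ ∞ := by
    rw [rho_fst h k]
    filter_upwards [h.zero, h1] with g e1 e2 using ⟨e1, e2.ne⟩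
  exact ae_of_ae_map measurable_fst.aemeasurable h2

theorem rho_mom (h : Inv d s Λ) (u : ℝ) : ∃ B : ℝ≥0∞, B ≠ ∞ ∧ ∀ k : ℕ,
    ∫⁻ w, ee (u * w.2) * d.V w.1 ∂rho d s Λ k ≤
      B * ee ((s * u + u ^ 2 / 2 - u * d.Q) * (k * Real.log 2)) := by
  obtain ⟨B, hB⟩ := d.wt_kid (s + u)
  refine ⟨B * ∫⁻ g, d.V g ^ (|s + u| + 1) ∂Λ,
    ENNReal.mul_ne_top ENNReal.coe_ne_top (h.mom _ (by positivity)), fun k => ?_⟩
  rw [lintegral_rho h k (F := fun w => ee (u * w.2) * d.V w.1)
    ((measurable_ee.comp (measurable_snd.const_mul u)).mul (d.V_meas.comp measurable_fst)),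
    ← rho_aux_four k (_ * ee _)]
  gcongr with j
  have e : ∀ g : Fn, tl s k (cor k j) g * (ee (u * d.kid k j g 0) * d.V (shp k (cor k j) g)) =
      ee ((s * d.Q - s ^ 2 / 2) * (k * Real.log 2)) *
        (ee ((s + u) * d.kid k j g 0) * d.V (d.kid k j g)) := fun g => by
    rw [d.V_kid, tl, ← mul_assoc, ← ee_add, ← mul_assoc (ee _), ← ee_add, d.kid_zero]
    congr 2
    ring
  simp only [e]
  rw [mul_right_comm, ← lintegral_const_mul' _ _
    (ENNReal.mul_ne_top ENNReal.coe_ne_top (ee_ne_top _))]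
  refine lintegral_mono_ae ?_
  filter_upwards [h.zero] with g hg
  rw [lintegral_const_mul' _ _ (ee_ne_top _)]
  refine (mul_le_mul_right (hB k j g) _).trans (le_of_eq ?_)
  rw [hg, mul_zero, ee_zero, mul_one, show (s * u + u ^ 2 / 2 - u * d.Q) * (k * Real.log 2) =
    (s * d.Q - s ^ 2 / 2) * (k * Real.log 2) +
      ((s + u) ^ 2 / 2 - (s + u) * d.Q) * (k * Real.log 2) by ring, ee_add]
  ring

theorem rho_int (h : Inv d s Λ) (k : ℕ) :
    Integrable (fun w : Fn × ℝ => ((1 + d.C) * d.V w.1).toReal * (1 + |w.2|)) (rho d s Λ k) := by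
  have hm : ∀ u : ℝ, Measurable fun w : Fn × ℝ => ee (u * w.2) * d.V w.1 := fun u =>
    (measurable_ee.comp (measurable_snd.const_mul u)).mul (d.V_meas.comp measurable_fst)
  have hf : ∀ u : ℝ, Integrable (fun w : Fn × ℝ => (ee (u * w.2) * d.V w.1).toReal)
      (rho d s Λ k) := fun u => by
    obtain ⟨B, hB, h1⟩ := rho_mom h u
    exact integrable_toReal_of_lintegral_ne_top (hm u).aemeasurable
      (ne_top_of_le_ne_top (ENNReal.mul_ne_top hB (ee_ne_top _)) (h1 k))
  refine (((hf 1).add (hf (-1))).const_mul ((1 + d.C : ℝ≥0∞).toReal)).mono'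
    ((((d.V_meas.comp measurable_fst).const_mul _).ennreal_toReal).mul
      (measurable_snd.abs.const_add 1)).aestronglyMeasurable (ae_of_all _ fun w => ?_)
  rw [Real.norm_of_nonneg (by positivity), ENNReal.toReal_mul, mul_assoc]
  refine mul_le_mul_of_nonneg_left ?_ ENNReal.toReal_nonneg
  simp only [Pi.add_apply, ENNReal.toReal_mul, ee_toReal]
  rw [← add_mul, mul_comm]
  refine mul_le_mul_of_nonneg_right ?_ ENNReal.toReal_nonneg
  have h1 := Real.add_one_le_exp (1 * w.2)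
  have h2 := Real.add_one_le_exp (-1 * w.2)
  have h3 := Real.exp_pos (1 * w.2)
  have h4 := Real.exp_pos (-1 * w.2)
  rcases abs_cases w.2 with e | e <;> linarith [e.1]

/-- the drift of the height is negative at large depth -/
theorem rho_neg (h : Inv d s Λ) {u : ℝ} (hu : 0 < u) (he : s * u + u ^ 2 / 2 - u * d.Q < 0)
    {M : Fn → ℝ≥0∞} (hM : Measurable M) (hle : ∀ g, M g ≤ (1 + d.C) * d.V g)
    (hpos : ∀ g, M g ≠ 0) : ∃ k : ℕ, ∫ w, w.2 * (M w.1).toReal ∂rho d s Λ k < 0 := by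
  have := h.prob
  obtain ⟨B, hB, h1⟩ := rho_mom h u
  have hC : (1 + d.C : ℝ≥0∞) ≠ ∞ := by simp
  have m0 : ∫⁻ g, M g ∂Λ ≠ 0 := fun e => by
    obtain ⟨g, hg⟩ := ((lintegral_eq_zero_iff hM).1 e).exists
    exact hpos g hg
  have m1 : ∫⁻ g, M g ∂Λ ≠ ∞ := by
    refine ne_top_of_le_ne_top ?_ (lintegral_mono hle)
    rw [lintegral_const_mul _ d.V_meas]
    exact ENNReal.mul_ne_top hC (by simpa using h.mom 1 zero_le_one)
  have hl : 0 < Real.log 2 := Real.log_pos one_lt_two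
  have t1 : Tendsto (fun k : ℕ => (1 + d.C : ℝ≥0∞) *
      (B * ee ((s * u + u ^ 2 / 2 - u * d.Q) * (k * Real.log 2)))) atTop (𝓝 0) := by
    have t0 := (tendsto_ee_neg (a := -(s * u + u ^ 2 / 2 - u * d.Q) * Real.log 2)
      (mul_pos (by linarith) hl)).comp tendsto_natCast_atTop_atTop
    have t2 := ENNReal.Tendsto.const_mul (a := (1 + d.C) * B) t0
      (Or.inr (ENNReal.mul_ne_top hC hB))
    rw [mul_zero] at t2
    refine t2.congr fun k => ?_
    rw [mul_assoc, Function.comp_apply]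
    congr 3
    ring
  obtain ⟨k, hk⟩ := (t1.eventually (gt_mem_nhds (pos_iff_ne_zero.2 m0))).exists
  refine ⟨k, ?_⟩
  have a1 : Measurable fun w : Fn × ℝ => M w.1 := hM.comp measurable_fst
  have a2 : Measurable fun w : Fn × ℝ => ee (u * w.2) * M w.1 :=
    (measurable_ee.comp (measurable_snd.const_mul u)).mul a1
  have e1 : ∫⁻ w, M w.1 ∂rho d s Λ k = ∫⁻ g, M g ∂Λ := by
    rw [← lintegral_map hM measurable_fst, rho_fst h k]
  have e2 : ∫⁻ w, ee (u * w.2) * M w.1 ∂rho d s Λ k < ∫⁻ w, M w.1 ∂rho d s Λ k := by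
    rw [e1]
    refine lt_of_le_of_lt ?_ hk
    refine le_trans ?_ (mul_le_mul_right (h1 k) _)
    rw [← lintegral_const_mul' _ _ hC]
    refine lintegral_mono fun w => ?_
    rw [mul_left_comm]
    exact mul_le_mul_right (hle _) _
  have f1 : ∫⁻ w, M w.1 ∂rho d s Λ k ≠ ∞ := e1 ▸ m1
  have f2 : ∫⁻ w, ee (u * w.2) * M w.1 ∂rho d s Λ k ≠ ∞ := e2.ne_top
  have i1 := integrable_toReal_of_lintegral_ne_top a1.aemeasurable f1
  have i2 := integrable_toReal_of_lintegral_ne_top a2.aemeasurable f2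
  have i3 : Integrable (fun w : Fn × ℝ => w.2 * (M w.1).toReal) (rho d s Λ k) := by
    refine (rho_int h k).mono' (measurable_snd.mul a1.ennreal_toReal).aestronglyMeasurable ?_
    filter_upwards [rho_fin h k] with w hw
    rw [norm_mul, Real.norm_of_nonneg ENNReal.toReal_nonneg, Real.norm_eq_abs, mul_comm]
    exact mul_le_mul (ENNReal.toReal_mono (ENNReal.mul_ne_top hC hw.2) (hle _)) (by linarith)
      (abs_nonneg _) ENNReal.toReal_nonneg
  have b := integral_mono (i3.const_mul u) (i2.sub i1) fun w => by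
    simp only [Pi.sub_apply, ENNReal.toReal_mul, ee_toReal]
    have := mul_le_mul_of_nonneg_right (Real.add_one_le_exp (u * w.2))
      (ENNReal.toReal_nonneg (a := M w.1))
    linarith
  rw [integral_const_mul, integral_sub' i2 i1,
    integral_toReal a2.aemeasurable (ae_lt_top a2 f2),
    integral_toReal a1.aemeasurable (ae_lt_top a1 f1)] at b
  have c := (ENNReal.toReal_lt_toReal f2 f1).2 e2
  by_contra hn
  have := mul_nonneg hu.le (not_lt.1 hn)
  linarith

end Pool.Agent.Lib.MP_0d9445_pr.Lin
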