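import Pool.Agent.Lib.MP_0d9445_pr.Lin.Rho

/-! The exact time scale: subinvariance of the normalised means. -/

open MeasureTheory ProbabilityTheory Set Filter Topology
open scoped ENNReal NNReal

noncomputable section

namespace Pool.Agent.Lib.MP_0d9445_pr.Lin

open HO

variable {X : Type} [MeasurableSpace X] {d : Data X} {s q : ℝ} {Λ : Measure Fn} {F : X → ℝ}

theorem fun_nu (d : Data X) : Fun d 0 2 (d.nu 1) := by
  refine ⟨d.nu_meas 1, d.nu_nonneg 1, one_lt_two, le_rfl, fun g => ?_⟩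
  simp only [Real.rpow_two, mul_zero, zero_mul, ee_zero, mul_one]
  exact d.K_nu g 1 (by simp)

theorem fun_pi (d : Data X) : Fun d d.γ d.p d.pi := by
  exact ⟨d.pi_meas, d.pi_nonneg, d.one_lt, d.le_two, d.K_pi⟩

theorem fun_mu (d : Data X) : Fun d d.γ d.p d.mu := by
  exact ⟨d.mu_meas, d.mu_nonneg, d.one_lt, d.le_two, d.K_mu⟩

theorem ph_meas (d : Data X) (s : ℝ) (hF : Measurable F) :
    Measurable (Function.uncurry (ph d s F)) := by
  exact (measurable_ee.comp
    ((((measurable_ev 0).comp measurable_fst).add measurable_snd).const_mul (-s))).mul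
    ((d.measurable_lintegral_P hF.ennreal_ofReal).comp
      (measurable_fst.add (measurable_cst.comp measurable_snd)))

theorem sub_inv (t : ℝ) : (ee t)⁻¹ = ee (-t) := by
  rw [ee, ee, Real.exp_neg, ENNReal.ofReal_inv_of_pos (Real.exp_pos _)]

theorem sub_trunc (hF : Fun d s q F) (u : Fn) (B : Set X) (r : ℝ) :
    ee (-s * u 0) * ∫⁻ x in B, ENNReal.ofReal (F x) ∂d.P 0 u ≤
      ee r * d.P 0 u B + ee (-(q - 1) * r) * (d.C * d.V u) := by
  have h1 := setLIntegral_le_trunc (d.P 0 u) hF.meas hF.nonneg (Real.exp_pos (s * u 0 + r))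
    hF.one_lt.le B
  have e1 : ENNReal.ofReal (Real.exp (s * u 0 + r) ^ (q - 1)) = ee ((s * u 0 + r) * (q - 1)) := by
    rw [← Real.exp_mul]; rfl
  have e0 : ENNReal.ofReal (Real.exp (s * u 0 + r)) = ee (s * u 0 + r) := rfl
  rw [e1, e0, ENNReal.div_eq_inv_mul, sub_inv] at h1
  have e2 : ee r = ee (-s * u 0) * ee (s * u 0 + r) := by
    rw [← ee_add]; congr 1; ring
  have e3 : ee (-(q - 1) * r) =
      ee (-s * u 0) * ee (-((s * u 0 + r) * (q - 1))) * ee (q * s * u 0) := by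
    rw [← ee_add, ← ee_add]; congr 1; ring
  calc _ ≤ ee (-s * u 0) * (ee (s * u 0 + r) * d.P 0 u B +
        ee (-((s * u 0 + r) * (q - 1))) * (d.C * ee (q * s * u 0) * d.V u)) := by
        gcongr
        refine h1.trans ?_
        gcongr
        exact hF.mom u
    _ = _ := by rw [e2, e3]; ring

theorem ph_le (hF : Fun d s q F) (g : Fn) (t : ℝ) : ph d s F g t ≤ (1 + d.C) * d.V g := by
  have h1 := sub_trunc hF (g + cst t) univ 0
  rw [Measure.restrict_univ, measure_univ, mul_zero, ee_zero, one_mul, one_mul, d.V_cst] at h1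
  rw [add_mul, one_mul]
  exact le_trans h1 (add_le_add (d.one_le_V g) le_rfl)

theorem sub_split (hF : Fun d s q F) (k : ℕ) {r : ℝ} (u : Fn)
    (hsub : ∀ᵐ x ∂d.P 0 u, x ∈ d.allLoc k → F x ≤ Real.exp r * ∑ j, F (d.ch k j x)) :
    ∫⁻ x, ENNReal.ofReal (F x) ∂d.P 0 u ≤
      ee r * ∑ j, ∫⁻ η, ∫⁻ x, ENNReal.ofReal (F x) ∂d.P 0 (d.kid k j (u + η)) ∂d.lay k +
        ∫⁻ x in (d.allLoc k)ᶜ, ENNReal.ofReal (F x) ∂d.P 0 u := by
  have hν := hF.meas.ennreal_ofReal
  have hch : ∀ j, Measurable fun x => ENNReal.ofReal (F (d.ch k j x)) :=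
    fun j => hν.comp (d.ch_meas k j)
  simp only [← d.lintegral_ch k _ u hν]
  rw [← lintegral_finsetSum _ fun j _ => hch j,
    ← lintegral_const_mul _ (Finset.measurable_sum _ fun j _ => hch j),
    ← lintegral_indicator (d.measurableSet_allLoc k).compl,
    ← lintegral_add_left ((Finset.measurable_sum _ fun j _ => hch j).const_mul _)]
  refine lintegral_mono_ae ?_
  filter_upwards [hsub] with x hx
  by_cases hl : x ∈ d.allLoc k
  · refine le_trans ?_ le_self_add
    rw [← ENNReal.ofReal_sum_of_nonneg fun j _ => hF.nonneg _, ee,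
      ← ENNReal.ofReal_mul (Real.exp_pos _).le]
    exact ENNReal.ofReal_le_ofReal (hx hl)
  · rw [indicator_of_mem (mem_compl hl)]
    exact le_add_self

theorem sub_pt (hF : Fun d s q F) (k : ℕ)
    (hsub : ∀ g, ∀ᵐ x ∂d.P 0 g, x ∈ d.allLoc k →
      F x ≤ Real.exp (-(2 - s * d.Q + s ^ 2 / 2) * (k * Real.log 2)) * ∑ j, F (d.ch k j x))
    {g : Fn} (hg : g 0 = 0) (t : ℝ) :
    ph d s F g t ≤ (4 ^ k : ℝ≥0∞)⁻¹ * ∑ j : Ix k, ∫⁻ η, tl s k (cor k j) (g + η) *
        ph d s F (shp k (cor k j) (g + η)) (t + d.kid k j (g + η) 0) ∂d.lay k +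
      ee (-s * t) * ∫⁻ x in (d.allLoc k)ᶜ, ENNReal.ofReal (F x) ∂d.P 0 (g + cst t) := by
  have e : ∀ (j : Ix k) (η : Fn), d.kid k j (g + cst t + η) =
      shp k (cor k j) (g + η) + cst (t + d.kid k j (g + η) 0) := by
    intro j η
    ext z
    simp [Data.kid]
    ring
  rw [ph, hg, zero_add]
  refine (mul_le_mul_right (sub_split hF k (g + cst t) (hsub _)) _).trans ?_
  rw [mul_add, ← mul_assoc, Finset.mul_sum, Finset.mul_sum]
  refine add_le_add (le_of_eq (Finset.sum_congr rfl fun j _ => ?_)) le_rfl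
  rw [← lintegral_const_mul' _ _ (ENNReal.mul_ne_top (ee_ne_top _) (ee_ne_top _)),
    ← lintegral_const_mul' _ _ (by simp)]
  refine lintegral_congr fun η => ?_
  have e4 : ee (-s * t) * ee (-(2 - s * d.Q + s ^ 2 / 2) * (k * Real.log 2)) =
      (4 ^ k : ℝ≥0∞)⁻¹ * (tl s k (cor k j) (g + η) *
        ee (-s * (shp k (cor k j) (g + η) 0 + (t + d.kid k j (g + η) 0)))) := by
    rw [tl, PfDeg_four, sub_inv, ← ee_add, ← ee_add, ← ee_add, d.kid_zero]
    congr 1
    simp only [shp_apply, zero_div, add_zero, sub_self]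
    ring
  rw [e, ph, e4]
  simp only [mul_assoc]

theorem sub_meas (d : Data X) (s : ℝ) (k : ℕ) (j : Ix k) {G : Fn × ℝ → ℝ≥0∞} (hG : Measurable G) :
    Measurable fun g : Fn => ∫⁻ η, tl s k (cor k j) (g + η) *
      G (shp k (cor k j) (g + η), d.kid k j (g + η) 0) ∂d.lay k := by
  have h1 : Measurable (tl s k (cor k j)) :=
    measurable_ee.comp (((measurable_ev _).const_mul s).sub measurable_const)
  have h2 : Measurable fun u : Fn => tl s k (cor k j) u * G (shp k (cor k j) u, d.kid k j u 0) :=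
    h1.mul (hG.comp ((measurable_shp k _).prodMk ((measurable_ev 0).comp (d.measurable_kid k j))))
  exact Measurable.lintegral_prod_right' (ν := d.lay k) (h2.comp measurable_add)

theorem ph_sub (h : Inv d s Λ) (hF : Fun d s q F) (k : ℕ)
    (hsub : ∀ g, ∀ᵐ x ∂d.P 0 g, x ∈ d.allLoc k →
      F x ≤ Real.exp (-(2 - s * d.Q + s ^ 2 / 2) * (k * Real.log 2)) * ∑ j, F (d.ch k j x)) :
    ∃ E a : ℝ, 0 < a ∧ ∀ t, 0 ≤ t → ∫ w, (ph d s F w.1 t).toReal ∂rho d s Λ k ≤
      ∫ w, (ph d s F w.1 (t + w.2)).toReal ∂rho d s Λ k + E * Real.exp (-a * t) := by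
  have := h.prob
  obtain ⟨B, hB⟩ := locS d k
  have ha := d.a_pos
  have hq := hF.one_lt
  set W : Fn → ℝ≥0∞ := fun g => B * d.V g ^ (d.a + 1) + d.C * d.V g with hW
  have hV : ∫⁻ g, d.V g ∂Λ ≠ ∞ := by simpa using h.mom 1 zero_le_one
  have hWm : Measurable W := ((d.V_meas.pow_const _).const_mul _).add (d.V_meas.const_mul _)
  have hWfin : ∫⁻ g, W g ∂Λ ≠ ∞ := by
    rw [hW, lintegral_add_left ((d.V_meas.pow_const _).const_mul _),
      lintegral_const_mul _ (d.V_meas.pow_const _), lintegral_const_mul _ d.V_meas]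
    exact ENNReal.add_ne_top.2 ⟨ENNReal.mul_ne_top (by simp) (h.mom _ (by linarith)),
      ENNReal.mul_ne_top (by simp) hV⟩
  refine ⟨(∫⁻ g, W g ∂Λ).toReal, (q - 1) * (d.a / 2), mul_pos (by linarith) (half_pos ha),
    fun t ht => ?_⟩
  have hm := ph_meas d s hF.meas
  have m1 : Measurable fun g : Fn => ph d s F g t := hm.comp (measurable_id.prodMk measurable_const)
  have m2 : Measurable fun w : Fn × ℝ => ph d s F w.1 (t + w.2) :=
    hm.comp (measurable_fst.prodMk (measurable_const.add measurable_snd))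
  have m3 := fun j : Ix k => sub_meas d s k j m2
  have hfin : ∀ᵐ w ∂rho d s Λ k, ∀ r, ph d s F w.1 r < ∞ := by
    filter_upwards [rho_fin h k] with w hw r
    exact (ph_le hF w.1 r).trans_lt (ENNReal.mul_ne_top (by simp) hw.2).lt_top
  have hfin2 : ∫⁻ w, ph d s F w.1 (t + w.2) ∂rho d s Λ k ≠ ∞ := by
    refine ne_top_of_le_ne_top ?_ (lintegral_mono fun w => ph_le hF w.1 (t + w.2))
    rw [← lintegral_map (f := fun g => (1 + d.C) * d.V g) (d.V_meas.const_mul _) measurable_fst,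
      rho_fst h k, lintegral_const_mul _ d.V_meas]
    exact ENNReal.mul_ne_top (by simp) hV
  have key : ∫⁻ w, ph d s F w.1 t ∂rho d s Λ k ≤ ∫⁻ w, ph d s F w.1 (t + w.2) ∂rho d s Λ k +
      (∫⁻ g, W g ∂Λ) * ee (-((q - 1) * (d.a / 2)) * t) := by
    rw [← lintegral_map m1 measurable_fst, rho_fst h k, lintegral_rho h k m2,
      ← lintegral_finsetSum _ fun j _ => m3 j,
      ← lintegral_const_mul _ (Finset.measurable_sum _ fun j _ => m3 j),
      ← lintegral_mul_const _ hWm, ← lintegral_add_right _ (hWm.mul_const _)]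
    refine lintegral_mono_ae ?_
    filter_upwards [h.zero] with g hg
    refine (sub_pt hF k hsub hg t).trans (add_le_add le_rfl ?_)
    have h0 : (g + cst t) 0 = t := by simp [hg]
    have h1 := sub_trunc hF (g + cst t) (d.allLoc k)ᶜ (d.a / 2 * t)
    have h2 := hB (g + cst t)
    rw [h0, d.V_cst] at h1 h2
    have h3 : ee (d.a / 2 * t) * ee (-d.a * t) ≤ ee (-((q - 1) * (d.a / 2)) * t) := by
      rw [← ee_add]
      have h4 := mul_nonneg (mul_nonneg (sub_nonneg.2 hF.le_two) ha.le) ht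
      exact ee_mono (by nlinarith)
    calc _ ≤ ee (d.a / 2 * t) * (B * ee (-d.a * t) * d.V g ^ (d.a + 1)) +
          ee (-(q - 1) * (d.a / 2 * t)) * (d.C * d.V g) := by
          refine h1.trans ?_
          gcongr
      _ = ee (d.a / 2 * t) * ee (-d.a * t) * (B * d.V g ^ (d.a + 1)) +
          ee (-((q - 1) * (d.a / 2)) * t) * (d.C * d.V g) := by
          rw [show -(q - 1) * (d.a / 2 * t) = -((q - 1) * (d.a / 2)) * t by ring]
          ring
      _ ≤ ee (-((q - 1) * (d.a / 2)) * t) * (B * d.V g ^ (d.a + 1)) +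
          ee (-((q - 1) * (d.a / 2)) * t) * (d.C * d.V g) := by gcongr
      _ = _ := by rw [hW]; ring
  rw [integral_toReal (f := fun w : Fn × ℝ => ph d s F w.1 t) (m1.comp measurable_fst).aemeasurable
      (hfin.mono fun w hw => hw t),
    integral_toReal m2.aemeasurable (hfin.mono fun w hw => hw _), ← ee_toReal,
    ← ENNReal.toReal_mul, ← ENNReal.toReal_add hfin2 (ENNReal.mul_ne_top hWfin (ee_ne_top _))]
  exact ENNReal.toReal_mono
    (ENNReal.add_ne_top.2 ⟨hfin2, ENNReal.mul_ne_top hWfin (ee_ne_top _)⟩) key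

end Pool.Agent.Lib.MP_0d9445_pr.Lin
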